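import Pool.Agent.Lib.MP_afdd4d_co.K10.LD.Perm
import Pool.Agent.Lib.MP_afdd4d_co.L9.LLst

/-!
# The tables of the kernels of a root
-/

namespace Pool.Agent.Lib.MP_afdd4d_co.K10.LD

open K8 K8.L9

/-- The conditions on the lists of the patterns from the conditions on the lists of the pairs. -/
theorem hls_of (ls : ℕ → ℕ → List ℕ) (h : ∀ t < 90, ∀ x0 < 64,
    LsOk (dKO (dit t)) 8388608 (dRp (dit t)) (dvt t) x0 (dc (dit t)) (ls t x0)) :
    ∀ p < 1024, ∀ x0 < 64,
      LsOk (dKO (dip p)) 8388608 (dRp (dip p)) (vK (dpp p)) x0 (dc (dip p)) (ls (dtn p) x0) := by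
  intro p hp x0 hx
  have h0 := allN_spec _ _ chk_tn p hp
  unfold tnChk at h0
  rw [Bool.and_eq_true, Bool.and_eq_true] at h0
  obtain ⟨h1, h2, h3⟩ := h0
  rw [Nat.blt_eq] at h1
  have h4 := Nat.eq_of_beq_eq_true h2
  have h5 := Nat.eq_of_beq_eq_true h3
  have h6 := h _ h1 x0 hx
  rw [h4, h5] at h6
  exact h6

/-- The tables with given lists. -/
noncomputable def mk2 (ls : ℕ → ℕ → List ℕ) (h : ∀ t < 90, ∀ x0 < 64,
    LsOk (dKO (dit t)) 8388608 (dRp (dit t)) (dvt t) x0 (dc (dit t)) (ls t x0)) : LT2 where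
  ip := dip
  pp := dpp
  rp := drp
  Rp := dRp
  c := dc
  tn := dtn
  ls := ls
  kx := dkx
  pgb := dpgb
  pgr := dpgr
  off := 8388608
  VB := 16777215
  RM := 129
  O := 72620535334306050
  KO := dKO
  hoff := by norm_num
  hoff2 := by norm_num
  hVB := dc_le
  hVB2 := by norm_num
  hRM := dRp_le
  hKO i := by
    have e : dKO i = 36310267667153025 + dRp i * 70368744177664 := rfl
    rw [e]
    omega
  hKO1 i := by
    have e : dKO i = 36310267667153025 + dRp i * 70368744177664 := rfl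
    have h := dRp_le i
    rw [e]
    omega
  hKO2 i := by
    have e : dKO i = 36310267667153025 + dRp i * 70368744177664 := rfl
    have h := dRp_le i
    rw [e]
    omega
  hbd i := by
    have e : dKO i = 36310267667153025 + dRp i * 70368744177664 := rfl
    have h := dRp_le i
    rw [e]
    omega
  hO := by norm_num
  hpp p hp := (ppC_spec _ _ _ _ _ (allN_spec _ _ chk_pp p hp)).2.1
  hrp p hp := (ppC_spec _ _ _ _ _ (allN_spec _ _ chk_pp p hp)).2.2
  hst := hst_of 34 8388608 dip drp dRp dc _ _ (by norm_num)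
    (fun p hp => (ppC_spec _ _ _ _ _ (allN_spec _ _ chk_pp p hp)).1) chk_ip chk_ri dc_lt dst
  hls := hls_of ls h
  hkx := hkx_of dkx chk_kx
  hpgb := dpgb_eq
  hpgr := dpgr_eq

end Pool.Agent.Lib.MP_afdd4d_co.K10.LD
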