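import Pool.Agent.Lib.MP_afdd4d_co.K10.LD.Tab
import Pool.Agent.Lib.MP_afdd4d_co.K10.LD.C00
import Pool.Agent.Lib.MP_afdd4d_co.K10.LD.C01
import Pool.Agent.Lib.MP_afdd4d_co.K10.LD.C02
import Pool.Agent.Lib.MP_afdd4d_co.K10.LD.C03
import Pool.Agent.Lib.MP_afdd4d_co.K10.LD.C04
import Pool.Agent.Lib.MP_afdd4d_co.K10.LD.C05
import Pool.Agent.Lib.MP_afdd4d_co.K10.LD.C06
import Pool.Agent.Lib.MP_afdd4d_co.K10.LD.C07
import Pool.Agent.Lib.MP_afdd4d_co.K10.LD.C08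
import Pool.Agent.Lib.MP_afdd4d_co.K10.LD.C09
import Pool.Agent.Lib.MP_afdd4d_co.K10.LD.C10
import Pool.Agent.Lib.MP_afdd4d_co.K10.LD.C11
import Pool.Agent.Lib.MP_afdd4d_co.K10.LD.C12
import Pool.Agent.Lib.MP_afdd4d_co.K10.LD.C13
import Pool.Agent.Lib.MP_afdd4d_co.K10.LD.C14
import Pool.Agent.Lib.MP_afdd4d_co.K10.LD.C15
import Pool.Agent.Lib.MP_afdd4d_co.K10.LD.C16
import Pool.Agent.Lib.MP_afdd4d_co.K10.LD.C17
import Pool.Agent.Lib.MP_afdd4d_co.K10.LD.C18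
import Pool.Agent.Lib.MP_afdd4d_co.K10.LD.C19
import Pool.Agent.Lib.MP_afdd4d_co.K10.LD.C20
import Pool.Agent.Lib.MP_afdd4d_co.K10.LD.C21
import Pool.Agent.Lib.MP_afdd4d_co.K10.LD.C22
import Pool.Agent.Lib.MP_afdd4d_co.K10.LD.C23
import Pool.Agent.Lib.MP_afdd4d_co.K10.LD.C24
import Pool.Agent.Lib.MP_afdd4d_co.K10.LD.C25
import Pool.Agent.Lib.MP_afdd4d_co.K10.LD.C26
import Pool.Agent.Lib.MP_afdd4d_co.K10.LD.C27
import Pool.Agent.Lib.MP_afdd4d_co.K10.LD.C28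
import Pool.Agent.Lib.MP_afdd4d_co.K10.LD.C29
import Pool.Agent.Lib.MP_afdd4d_co.K10.LD.C30
import Pool.Agent.Lib.MP_afdd4d_co.K10.LD.C31
import Pool.Agent.Lib.MP_afdd4d_co.K10.LD.C32
import Pool.Agent.Lib.MP_afdd4d_co.K10.LD.C33

/-!
# The tables of the literals
-/

namespace Pool.Agent.Lib.MP_afdd4d_co.K10.LD

open K8 K8.L9

/-- The literals of the types. -/
noncomputable def CS : List (List (List Nat)) := [
  C00, C01, C02, C03, C04, C05, C06, C07, C08, C09, C10, C11,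
  C12, C13, C14, C15, C16, C17, C18, C19, C20, C21, C22, C23,
  C24, C25, C26, C27, C28, C29, C30, C31, C32, C33]

/-- The literal of a type. -/
noncomputable def dc (i j : ℕ) : ℕ := nth2 0 12 (nthG [] CS i) j

end Pool.Agent.Lib.MP_afdd4d_co.K10.LD
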