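import Pool.Agent.Lib.MP_afdd4d_co.K10.LD.SD00

/-!
# The permutations of the type 0, part 2
-/

namespace Pool.Agent.Lib.MP_afdd4d_co.K10.LD

open K8 K8.L9

theorem sa00_4 : allN (fun j => sc00 (Nat.add (Nat.mul 8 4) j)) 8 = true := by
  decide +kernel

theorem sa00_5 : allN (fun j => sc00 (Nat.add (Nat.mul 8 5) j)) 8 = true := by
  decide +kernel

end Pool.Agent.Lib.MP_afdd4d_co.K10.LD
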