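import Pool.Agent.Lib.MP_afdd4d_co.K10.LD.S00_00
import Pool.Agent.Lib.MP_afdd4d_co.K10.LD.S00_01
import Pool.Agent.Lib.MP_afdd4d_co.K10.LD.S00_02
import Pool.Agent.Lib.MP_afdd4d_co.K10.LD.S00_03
import Pool.Agent.Lib.MP_afdd4d_co.K10.LD.S00_04
import Pool.Agent.Lib.MP_afdd4d_co.K10.LD.S00_05
import Pool.Agent.Lib.MP_afdd4d_co.K10.LD.S00_06
import Pool.Agent.Lib.MP_afdd4d_co.K10.LD.S00_07

/-!
# The permutations of the type 0
-/

namespace Pool.Agent.Lib.MP_afdd4d_co.K10.LD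

open K8 K8.L9

theorem st00 : ∀ k < 120, sc00 k = true := by
  refine all_split _ 15 8 fun i hi => ?_
  interval_cases i
  · exact sa00_0
  · exact sa00_1
  · exact sa00_2
  · exact sa00_3
  · exact sa00_4
  · exact sa00_5
  · exact sa00_6
  · exact sa00_7
  · exact sa00_8
  · exact sa00_9
  · exact sa00_10
  · exact sa00_11
  · exact sa00_12
  · exact sa00_13
  · exact sa00_14

end Pool.Agent.Lib.MP_afdd4d_co.K10.LD
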