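import Pool.Agent.Lib.MP_afdd4d_co.K10.LD.S04_00

/-!
# The permutations of the type 4
-/

namespace Pool.Agent.Lib.MP_afdd4d_co.K10.LD

open K8 K8.L9

theorem st04 : ∀ k < 120, sc04 k = true := by
  refine all_split _ 2 60 fun i hi => ?_
  interval_cases i
  · exact sa04_0
  · exact sa04_1

end Pool.Agent.Lib.MP_afdd4d_co.K10.LD
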