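import Pool.Agent.Lib.MP_afdd4d_co.K10.LD.S20_00

/-!
# The permutations of the type 20
-/

namespace Pool.Agent.Lib.MP_afdd4d_co.K10.LD

open K8 K8.L9

theorem st20 : ∀ k < 120, sc20 k = true := by
  refine all_split _ 6 20 fun i hi => ?_
  interval_cases i
  · exact sa20_0
  · exact sa20_1
  · exact sa20_2
  · exact sa20_3
  · exact sa20_4
  · exact sa20_5

end Pool.Agent.Lib.MP_afdd4d_co.K10.LD
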