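import Pool.Agent.Lib.MP_afdd4d_co.K10.LD.SD33

/-!
# The permutations of the type 33, part 3
-/

namespace Pool.Agent.Lib.MP_afdd4d_co.K10.LD

open K8 K8.L9

theorem sa33_6 : allN (fun j => sc33 (Nat.add (Nat.mul 10 6) j)) 10 = true := by
  decide +kernel

theorem sa33_7 : allN (fun j => sc33 (Nat.add (Nat.mul 10 7) j)) 10 = true := by
  decide +kernel

end Pool.Agent.Lib.MP_afdd4d_co.K10.LD
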