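import Pool.Agent.Lib.MP_afdd4d_co.K10.LD.S33_00
import Pool.Agent.Lib.MP_afdd4d_co.K10.LD.S33_01
import Pool.Agent.Lib.MP_afdd4d_co.K10.LD.S33_02
import Pool.Agent.Lib.MP_afdd4d_co.K10.LD.S33_03
import Pool.Agent.Lib.MP_afdd4d_co.K10.LD.S33_04
import Pool.Agent.Lib.MP_afdd4d_co.K10.LD.S33_05

/-!
# The permutations of the type 33
-/

namespace Pool.Agent.Lib.MP_afdd4d_co.K10.LD

open K8 K8.L9

theorem st33 : ∀ k < 120, sc33 k = true := by
  refine all_split _ 12 10 fun i hi => ?_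
  interval_cases i
  · exact sa33_0
  · exact sa33_1
  · exact sa33_2
  · exact sa33_3
  · exact sa33_4
  · exact sa33_5
  · exact sa33_6
  · exact sa33_7
  · exact sa33_8
  · exact sa33_9
  · exact sa33_10
  · exact sa33_11

end Pool.Agent.Lib.MP_afdd4d_co.K10.LD
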