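import Pool.Agent.Lib.MP_afdd4d_co.L9.LGlue
import Pool.Agent.Lib.MP_afdd4d_co.K10.LD.C00
import Pool.Agent.Lib.MP_afdd4d_co.K10.LD.C01
import Pool.Agent.Lib.MP_afdd4d_co.K10.LD.C02
import Pool.Agent.Lib.MP_afdd4d_co.K10.LD.C03
import Pool.Agent.Lib.MP_afdd4d_co.K10.LD.C04
import Pool.Agent.Lib.MP_afdd4d_co.K10.LD.C05
import Pool.Agent.Lib.MP_afdd4d_co.K10.LD.C06
import Pool.Agent.Lib.MP_afdd4d_co.K10.LD.C07
import Pool.Agent.Lib.MP_afdd4d_co.K10.LD.C08
import Pool.Agent.Lib.MP_afdd4d_co.K10.LD.C09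
import Pool.Agent.Lib.MP_afdd4d_co.K10.LD.C10
import Pool.Agent.Lib.MP_afdd4d_co.K10.LD.C11
import Pool.Agent.Lib.MP_afdd4d_co.K10.LD.C12
import Pool.Agent.Lib.MP_afdd4d_co.K10.LD.C13
import Pool.Agent.Lib.MP_afdd4d_co.K10.LD.C14
import Pool.Agent.Lib.MP_afdd4d_co.K10.LD.C15
import Pool.Agent.Lib.MP_afdd4d_co.K10.LD.C16
import Pool.Agent.Lib.MP_afdd4d_co.K10.LD.C17
import Pool.Agent.Lib.MP_afdd4d_co.K10.LD.C18

/-!
# The bounds of the entries
-/

namespace Pool.Agent.Lib.MP_afdd4d_co.K10.LD

open K8 K8.L9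

theorem vb00 : vbL C00 = true := by decide +kernel

theorem vb01 : vbL C01 = true := by decide +kernel

theorem vb02 : vbL C02 = true := by decide +kernel

theorem vb03 : vbL C03 = true := by decide +kernel

theorem vb04 : vbL C04 = true := by decide +kernel

theorem vb05 : vbL C05 = true := by decide +kernel

theorem vb06 : vbL C06 = true := by decide +kernel

theorem vb07 : vbL C07 = true := by decide +kernel

theorem vb08 : vbL C08 = true := by decide +kernel

theorem vb09 : vbL C09 = true := by decide +kernel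

theorem vb10 : vbL C10 = true := by decide +kernel

theorem vb11 : vbL C11 = true := by decide +kernel

theorem vb12 : vbL C12 = true := by decide +kernel

theorem vb13 : vbL C13 = true := by decide +kernel

theorem vb14 : vbL C14 = true := by decide +kernel

theorem vb15 : vbL C15 = true := by decide +kernel

theorem vb16 : vbL C16 = true := by decide +kernel

theorem vb17 : vbL C17 = true := by decide +kernel

theorem vb18 : vbL C18 = true := by decide +kernel

end Pool.Agent.Lib.MP_afdd4d_co.K10.LD
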