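import Pool.Agent.Lib.MP_afdd4d_co.L9.LGlue
import Pool.Agent.Lib.MP_afdd4d_co.K10.LD.C19
import Pool.Agent.Lib.MP_afdd4d_co.K10.LD.C20
import Pool.Agent.Lib.MP_afdd4d_co.K10.LD.C21
import Pool.Agent.Lib.MP_afdd4d_co.K10.LD.C22
import Pool.Agent.Lib.MP_afdd4d_co.K10.LD.C23
import Pool.Agent.Lib.MP_afdd4d_co.K10.LD.C24
import Pool.Agent.Lib.MP_afdd4d_co.K10.LD.C25
import Pool.Agent.Lib.MP_afdd4d_co.K10.LD.C26
import Pool.Agent.Lib.MP_afdd4d_co.K10.LD.C27
import Pool.Agent.Lib.MP_afdd4d_co.K10.LD.C28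
import Pool.Agent.Lib.MP_afdd4d_co.K10.LD.C29
import Pool.Agent.Lib.MP_afdd4d_co.K10.LD.C30
import Pool.Agent.Lib.MP_afdd4d_co.K10.LD.C31
import Pool.Agent.Lib.MP_afdd4d_co.K10.LD.C32
import Pool.Agent.Lib.MP_afdd4d_co.K10.LD.C33

/-!
# The bounds of the entries
-/

namespace Pool.Agent.Lib.MP_afdd4d_co.K10.LD

open K8 K8.L9

theorem vb19 : vbL C19 = true := by decide +kernel

theorem vb20 : vbL C20 = true := by decide +kernel

theorem vb21 : vbL C21 = true := by decide +kernel

theorem vb22 : vbL C22 = true := by decide +kernel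

theorem vb23 : vbL C23 = true := by decide +kernel

theorem vb24 : vbL C24 = true := by decide +kernel

theorem vb25 : vbL C25 = true := by decide +kernel

theorem vb26 : vbL C26 = true := by decide +kernel

theorem vb27 : vbL C27 = true := by decide +kernel

theorem vb28 : vbL C28 = true := by decide +kernel

theorem vb29 : vbL C29 = true := by decide +kernel

theorem vb30 : vbL C30 = true := by decide +kernel

theorem vb31 : vbL C31 = true := by decide +kernel

theorem vb32 : vbL C32 = true := by decide +kernel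

theorem vb33 : vbL C33 = true := by decide +kernel

end Pool.Agent.Lib.MP_afdd4d_co.K10.LD
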