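import Pool.Agent.Lib.MP_afdd4d_co.K10.LD.Lit
import Pool.Agent.Lib.MP_afdd4d_co.K10.LD.VB0
import Pool.Agent.Lib.MP_afdd4d_co.K10.LD.VB1
import Pool.Agent.Lib.MP_afdd4d_co.K10.LD.S00
import Pool.Agent.Lib.MP_afdd4d_co.K10.LD.S04
import Pool.Agent.Lib.MP_afdd4d_co.K10.LD.S20
import Pool.Agent.Lib.MP_afdd4d_co.K10.LD.S33
import Pool.Agent.Lib.MP_afdd4d_co.K10.LD.SS00
import Pool.Agent.Lib.MP_afdd4d_co.K10.LD.SS01
import Pool.Agent.Lib.MP_afdd4d_co.K10.LD.SS02
import Pool.Agent.Lib.MP_afdd4d_co.K10.LD.SS03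
import Pool.Agent.Lib.MP_afdd4d_co.K10.LD.SS04
import Pool.Agent.Lib.MP_afdd4d_co.K10.LD.SS05

/-!
# The bounds and the permutations of all types
-/

namespace Pool.Agent.Lib.MP_afdd4d_co.K10.LD

open K8 K8.L9

theorem CS_vb : ∀ L ∈ CS, vbL L = true := by
  intro L hL
  simp only [CS, List.mem_cons, List.not_mem_nil, or_false] at hL
  rcases hL with rfl | rfl | rfl | rfl | rfl | rfl | rfl | rfl | rfl | rfl | rfl | rfl | rfl | rfl | rfl | rfl | rfl | rfl | rfl | rfl | rfl | rfl | rfl | rfl | rfl | rfl | rfl | rfl | rfl | rfl | rfl | rfl | rfl | rfl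
  · exact vb00
  · exact vb01
  · exact vb02
  · exact vb03
  · exact vb04
  · exact vb05
  · exact vb06
  · exact vb07
  · exact vb08
  · exact vb09
  · exact vb10
  · exact vb11
  · exact vb12
  · exact vb13
  · exact vb14
  · exact vb15
  · exact vb16
  · exact vb17
  · exact vb18
  · exact vb19
  · exact vb20
  · exact vb21
  · exact vb22
  · exact vb23
  · exact vb24
  · exact vb25
  · exact vb26
  · exact vb27
  · exact vb28
  · exact vb29
  · exact vb30
  · exact vb31
  · exact vb32
  · exact vb33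

theorem dc_lt (i j : ℕ) : dc i j < 2 ^ 65536 := (vb_all CS 12 CS_vb i j).1

theorem dc_le (i j x : ℕ) : Ln 32 (dc i j) x ≤ 16777215 := (vb_all CS 12 CS_vb i j).2 x

/-- The images of the vectors. -/
noncomputable def ZS : List (List (List Nat)) := [
  Z00, Z01, Z02, Z03, Z04, Z05, Z06, Z07, Z08, Z09, Z10, Z11,
  Z12, Z13, Z14, Z15, Z16, Z17, Z18, Z19, Z20, Z21, Z22, Z23,
  Z24, Z25, Z26, Z27, Z28, Z29, Z30, Z31, Z32, Z33]

/-- The inverses. -/
noncomputable def WS : List (List (List Nat)) := [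
  W00, W01, W02, W03, W04, W05, W06, W07, W08, W09, W10, W11,
  W12, W13, W14, W15, W16, W17, W18, W19, W20, W21, W22, W23,
  W24, W25, W26, W27, W28, W29, W30, W31, W32, W33]

theorem dst : ∀ i < 34, ∀ k < 120, stC 8388608 (drp i) (dc i) (fun k => nth2 0 12 (nthG [] ZS i) k)
    (fun k => nth2 0 12 (nthG [] WS i) k) (dRp i) k = true := by
  intro i hi
  interval_cases i
  · exact st00
  · exact st01
  · exact st02
  · exact st03
  · exact st04
  · exact st05
  · exact st06
  · exact st07
  · exact st08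
  · exact st09
  · exact st10
  · exact st11
  · exact st12
  · exact st13
  · exact st14
  · exact st15
  · exact st16
  · exact st17
  · exact st18
  · exact st19
  · exact st20
  · exact st21
  · exact st22
  · exact st23
  · exact st24
  · exact st25
  · exact st26
  · exact st27
  · exact st28
  · exact st29
  · exact st30
  · exact st31
  · exact st32
  · exact st33

end Pool.Agent.Lib.MP_afdd4d_co.K10.LD
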