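import Pool.Agent.Lib.MP_afdd4d_co.K10.LD.SD20

/-!
# The permutations of the type 20, part 0
-/

namespace Pool.Agent.Lib.MP_afdd4d_co.K10.LD

open K8 K8.L9

theorem sa20_0 : allN (fun j => sc20 (Nat.add (Nat.mul 20 0) j)) 20 = true := by
  decide +kernel

theorem sa20_1 : allN (fun j => sc20 (Nat.add (Nat.mul 20 1) j)) 20 = true := by
  decide +kernel

theorem sa20_2 : allN (fun j => sc20 (Nat.add (Nat.mul 20 2) j)) 20 = true := by
  decide +kernel

theorem sa20_3 : allN (fun j => sc20 (Nat.add (Nat.mul 20 3) j)) 20 = true := by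
  decide +kernel

theorem sa20_4 : allN (fun j => sc20 (Nat.add (Nat.mul 20 4) j)) 20 = true := by
  decide +kernel

theorem sa20_5 : allN (fun j => sc20 (Nat.add (Nat.mul 20 5) j)) 20 = true := by
  decide +kernel

end Pool.Agent.Lib.MP_afdd4d_co.K10.LD
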