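import Pool.Agent.Lib.MP_afdd4d_co.L9.LGlue

/-!
# The tables of the patterns
-/

namespace Pool.Agent.Lib.MP_afdd4d_co.K10.LD

open K8 K8.L9

/-- The types of the patterns, 6 bits each. -/
noncomputable def IPT : ℕ :=
  (Nat.add (nat_lit 0x893482033071c244f40e3ca3893483072031c22c82872872462051c21c21814d24504502ca4502ca2ca10345034c3ce2073ce2072890c24503ce34c2073ce2892070c22ca2072071422891c61c60814503ce3ce28934c2072070c22ca2072891c62071421c60812ca2892071c62071c61420811030c20c20810c2081081040) (Nat.shiftLeft (Nat.add (nat_lit 0x820544f3ca34820340e3893071c271b6da5d640e5d058e3ca28765658e59538958e54938924644f40e3483073ca3892031c22c82872051c22872461c218179d71b71b65661744f44f2c871b5d06da58e5d63ca40e28771b6da5d058e5d640e3ca28765658e58e5495953893892466175d65d659550d34834820544f3ca40e3) (Nat.shiftLeft (Nat.add (nat_lit 0x79c71779c7174d144d7dd75275b6d075b6d049040c79c75b6115cf7196d644b3c87176d05cf58a6d668e40a38779c75b7196d66115cf44b3c87176d06d668e5cf58a40a3874d149044b40a44b40a2c428344d40c3c83873c838728324279d71b61744f71b65644f2c871b5d05d63ca6da58e40e2876175d650d3485d659534)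 (Nat.shiftLeft (Nat.add (nat_lit 0xc440a2837176d66d068e5cf40a58a38744d3c840c3873c828338724279d61771b44f71b44f6562c861750d5d63485d634859520571b5d65d03ca6da40e58e28744f3483ca20340e3073891c271b5d66da40e5d03ca58e28744f34840e3073ca2033891c265659558e38958e3895492462c82052871c22871c224618181f7dd) (Nat.shiftLeft (Nat.add (nat_lit 0x144b44b2c449040a40a2837dd75b75b4907526d06d040c7175cf6d640a6d058a68e3877176d65cf40a6d068e58a38744d3c83c828340c38738724281f79c7dd71779c4d171744d79c61175b5cf71944b6d63c87dd75b7526d075b4906d040c7175cf6d058a6d640a68e38779c71975b6d661144b5cf3c84d144b49040a44b2) (Nat.shiftLeft (Nat.add (nat_lit 0x81e79879861481e7937dc7117dc7117575cd81e7dc7937117dc7577115cd79871171164b7576cf6cf58881e7dc7dc7577937117115cd7987117576cf71164b6cf5887987577116cf7116cf64b5886145cd5cd5885cd58858854581f79c79c4d17dd71771744d79c61171944b75b5cf6d63c879c71961144b75b6d65cf3c84d) (Nat.shiftLeft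 (nat_lit 0x86081e81e798) (nat_lit 1016))) (nat_lit 1016))) (nat_lit 1016))) (nat_lit 1016))) (nat_lit 1016))) (nat_lit 1016)))

/-- The permutations of the patterns, 7 bits each. -/
noncomputable def PPT : ℕ :=
  (Nat.add (nat_lit 0x611920755193c65d1840491064096402058b13265122020450a081306060c18c63e7dd450e1da43021216c3061bb732b912d020438a38ad5663c81b3f3c9d1233c798c332ad16800018b13264fa20258515084c9600c2183d0c19bc50c3c50b024c56200080003094fad00343950814260012183c3090f210030309000c0e0) (Nat.shiftLeft (Nat.add (nat_lit 0x7361353cd4f36a162f06341903aad567493935748a10a9492525b36a156a0205a4338af4692448a6325870600cf5ac603aa1f1145056d258716200943f03ab95eb0848a63099f06001459c036a15f5024856d099f060003030800080692458a15244c960112d9bd112d9c012445952458a6305241493694da80640a170a4c9) (Nat.shiftLeft (Nat.add (nat_lit 0x7870611936ade076f4772040b73279306407241c936a0da806401900b842e1912645e4b492dd1b306db07682f23265d4554a9669084f163559f3663cfddc744b116f33922f0559f4683090f2054b962d3068c6354ad5664145cbf42a51ad4145cc154b96690434ff138a96690a589e50b87361052dcc132a916f06409f30b8)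 (Nat.shiftLeft (Nat.add (nat_lit 0x642a626f103da426fae26f165c5e32b9366365559c06556247123dac3124616d11258c242a51e912445e32bcb6637951e407d45cc1792d9c0796a17009cb67055ab4692593163c187060017a37055ab4712593170c1870603748ddd56b95eb0b90965579f367494ebdf50a1775377717657ab36a07301db3ba956b26589e52) (Nat.shiftLeft (Nat.add (nat_lit 0x163c1ab1627966040a376377677e1f0c1d36701335af0136a1712a5cae32b93163132d9c0132d9c012445e312445e31d304da9f734f52244ae52fcb165952ded89571edf1f344db1f685f362c614244b626f145616dc18766c60f21466ce224560ca143618616c409dd4446bd1e9639616d5bab769715dcc1429ddc5715e14) (Nat.shiftLeft (Nat.add (nat_lit 0x7a2f059ab76f434ddf15abd6e943722705bab4694345cc142a51e94345cc142a51e9196a27159af4692d931e5c3934647d620c1737a2f1976e3f6c3cb7714d490dc52a56eb936b1f35fd346ba145fd94f4d0dda169fde4f711f515ce170cdab76f2997163c18716267621c6677e1f117961ed299366d0d721705dab4eb2997) (Nat.shiftLeft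 (Nat.add (nat_lit 0xc193163c187060817a370d3d77f1c7cf6f0c1cb67051737f75dab4ebc3cb173cfab36aa3760df53774f5a3763765dd3475216b6f6cfd34752d931e5c393064976e05e976e3f7236f1f32dcb173936a4da51717f52168bf3c3cb072916aa5e9d7285d916a55b916b07245d627159af469c19366dcd9f46873662c747ae2ef73) (Nat.shiftLeft (nat_lit 0xc1cb670cdab469) (nat_lit 1016))) (nat_lit 1016))) (nat_lit 1016))) (nat_lit 1016))) (nat_lit 1016))) (nat_lit 1016))) (nat_lit 1016)))

/-- The numbers of the pairs of the patterns, 7 bits each. -/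
noncomputable def TNT : ℕ :=
  (Nat.add (nat_lit 0x33e54e113844c0e2a3088422107016cd18ad62b4f1a62b4f1a3c6848664b9221549ca10549ca10365c38364b95274884a10549cd9728403833e70a912a44604386088e223820164b9527549cd974884a1028403833e70a91386088e2a4460422382013e70e182a4488e2a4488e18102011420405101428210142820a08100) (Nat.shiftLeft (Nat.add (nat_lit 0x8b0d64a97274851090546d397281c8033e54e112a308843844c0e2210701a9466ca9b2a33b890182860a0e929d2e0ac9721e2582f14995894c8f9d2e5c882b1e2582f16255264c8f8ef5ea67a99d167ae93164c58b0d8b0a13e84f9f39708d193464c98b64a951b5c9d3974850a07424080364a9727546d3974851090281c8) (Nat.shiftLeft (Nat.add (nat_lit 0x754129d065ac96f242582a5e19586528f6cc5a2d627969a627969a3c24d06649172154513905451390361cb83a9466ca89018289b2a33b60a0e929d2e0ac82f14999721e255894c8f8b0a13e708d19384f9f39464c98b64a951b4850a075c9d39742408039d2e5c882f162582b1e255264c8f8ef5ea67ae93167a99d164c5)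 (Nat.shiftLeft (Nat.add (nat_lit 0x4e5c8039d2e0bc972162582b14997894c8f64a92145c9d090546ca074e5c8038ef5eba7a993167a993167458b0d3e54a8c384488438448843038701b156acfa73263fa73263f6abd7a2ad42833a1264aba1264ab66ad5a0a9368ca88c20289b1a53b60754129d065ac82a5e1996f2425586528fa9368ca9b1a53b88c20286) (Nat.shiftLeft (Nat.add (nat_lit 0x9ab92ad5a09d060a996b1e1996f1619909528fa9366c6a32a53b88c181d80a14126cc589e68b569a6278f095a68d069d065bc96b242582a5619786528f64915145c853905450d874e40b83a9462409b298289b298288cece928b09c2384f919384f91937ce498b9d2e0bc82b149997216257894c8f64a9214546ca075c9d09) (Nat.shiftLeft (Nat.add (nat_lit 0x2a02894ed412a9366c688c181da32a53b80a14126cc589e6278f0968b569a5a68d06ad42849a1259aba0ce4ab92ad5a09d060a996f161996b1e19909528f9d065bc82a561996b2425786528f64915145450d875c853904e40b83b1569ccab3e63fa731aaf98fd7a2a936230a32a0289b1981d94ed412ad42849a0ce4aba125) (Nat.shiftLeft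 (Nat.add (nat_lit 0xaf4a943a50e1b7b14e9b5ab3262fab3262f9efdfa2b14eacca6d662fab327bf98bdfa2a9126b09ac231da30252894a1d92b14eaccab327bfa6d662f98bdfa2a9126b0a3025289ac231d94a1d92a9128c09ac25289ac25288c75d928ae2123848df13848df137c4dc8bb1569cca731aafab3e63f98fd7a2a9362309b1981da3) (Nat.shiftLeft (nat_lit 0xb35ebd2af4a943) (nat_lit 1016))) (nat_lit 1016))) (nat_lit 1016))) (nat_lit 1016))) (nat_lit 1016))) (nat_lit 1016))) (nat_lit 1016)))

/-- The patterns of the types, 10 bits each. -/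
noncomputable def RPT : ℕ :=
  nat_lit 0xffdff7bcff3f8df374dc33cbf2ecb92e0b71fc7e0fc3e0ec3a0dc3607c1d070170541404c0f01c0300400

/-- The numbers of pairs of vectors of the types, 8 bits each. -/
noncomputable def RRT : ℕ :=
  nat_lit 0x694e3e4a3e37335743453a2e4e384f483330372e464b3e2f362f32424c4b2f364c81

/-- The types of the pairs, 6 bits each. -/
noncomputable def ITT : ℕ :=
  nat_lit 0x86081f7de79e75d75c71c6db6da6596186175d75d65965955545134d249145145041040f3cf38e38d34d30c2cb2ca28a2892492082081c71c61851441030c3082081040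

/-- The marked vertices of the pairs, 3 bits each. -/
noncomputable def VTT : ℕ :=
  nat_lit 0x21032191106408211111190410c31191190d06832088846844222190421042220c0

/-- The numbers of the orders of the other vertices, 5 bits each. -/
noncomputable def RKL : ℕ :=
  nat_lit 0xbdab49ca307b9ac5a928398a418820bdab49caf6bded6ad2b5a52729ce528c1ee6b2308c6107b9ef739ac6b58c5a9283996a5ad4a4a129420e639cc629062080a429484188631082008400

/-- The low bits after the permutations, 6 bits each. -/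
noncomputable def KXT : ℕ :=
  (Nat.add (nat_lit 0xe2e78c70a688607de5d63ce1c675c55434c1446da4d22ca0c2658450248040ffef7cefae78df6d74cf2c70beeb6caeaa689e69648e28607de75c6da6585d65544d24503ce34c2ca2481c61440c2040ffef7cefae78df6d74cf2c70beeb6caeaa689e69648e28607de75c6da6585d65544d24503ce34c2ca2481c61440c2040) (Nat.shiftLeft (Nat.add (nat_lit 0xc1446da4d22ca0c2658450248040ffef7cefae78df6d74cf2c70beeb6caeaa689e69648e28607de75c6da6585d65544d24503ce34c2ca2481c61440c2040ffedf6bee9e6f7cd74b6c964efacf2aea8e2e78c70a688607de5d63ce1c675c55434c1446da4d22ca0c2658450248040ffedf6bee9e6f7cd74b6c964efacf2aea8) (Nat.shiftLeft (Nat.add (nat_lit 0xef9eb8df5db4cf1cb07dd79c6d96985d55944d1490bedbacae9aa89e59a48e18a03cd38c2c92881c51840c1080ffdfbcef9eb8df5db4cf1cb07dd79c6d96985d55944d1490bedbacae9aa89e59a48e18a03cd38c2c92881c51840c1080ffedf6bee9e6f7cd74b6c964efacf2aea8e2e78c70a688607de5d63ce1c675c55434)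 (Nat.shiftLeft (Nat.add (nat_lit 0x944d1490bedbacae9aa89e59a48e18a03cd38c2c92881c51840c1080ff7fb6be7ba6f75f34b65b247d77963c7386755714345304ef3eb2ae3aa2e71e30a61a206d36922c3282651610241200ff7fb6be7ba6f75f34b65b247d77963c7386755714345304ef3eb2ae3aa2e71e30a61a206d36922c3282651610241200ffdfbc) (Nat.shiftLeft (Nat.add (nat_lit 0x98e12c90c1aa88a0288080ffddf57dd5d5fbcdb479c594ef9cf16d94d1eb8cb0698490bed9e53cd1c5bac9a438c184ae98e12c90c1aa88a0288080ff7fb6be7ba6f75f34b65b247d77963c7386755714345304ef3eb2ae3aa2e71e30a61a206d36922c3282651610241200ffdfbcef9eb8df5db4cf1cb07dd79c6d96985d55) (Nat.shiftLeft (Nat.add (nat_lit 0xfb6f34796714be7b653c7345ba6b24386304ef3e716d3651eb2e30692610ae3a612c3241aa2a20282200ff7f757d7755fb6f34796714be7b653c7345ba6b24386304ef3e716d3651eb2e30692610ae3a612c3241aa2a20282200ffddf57dd5d5fbcdb479c594ef9cf16d94d1eb8cb0698490bed9e53cd1c5bac9a438c184ae) (Nat.shiftLeft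 (Nat.add (nat_lit 0x607de75c6da6585d65544d24503ce34c2ca2481c61440c2040ff7f757d7755fb6f34796714be7b653c7345ba6b24386304ef3e716d3651eb2e30692610ae3a612c3241aa2a20282200ffddf57dd5d5fbcdb479c594ef9cf16d94d1eb8cb0698490bed9e53cd1c5bac9a438c184ae98e12c90c1aa88a0288080ff7f757d7755) (Nat.shiftLeft (Nat.add (nat_lit 0x3282651610241200ffdfbcef9eb8df5db4cf1cb07dd79c6d96985d55944d1490bedbacae9aa89e59a48e18a03cd38c2c92881c51840c1080ffedf6bee9e6f7cd74b6c964efacf2aea8e2e78c70a688607de5d63ce1c675c55434c1446da4d22ca0c2658450248040ffef7cefae78df6d74cf2c70beeb6caeaa689e69648e28) (Nat.shiftLeft (Nat.add (nat_lit 0x796714be7b653c7345ba6b24386304ef3e716d3651eb2e30692610ae3a612c3241aa2a20282200ffddf57dd5d5fbcdb479c594ef9cf16d94d1eb8cb0698490bed9e53cd1c5bac9a438c184ae98e12c90c1aa88a0288080ff7fb6be7ba6f75f34b65b247d77963c7386755714345304ef3eb2ae3aa2e71e30a61a206d36922c) (Nat.shiftLeft (Nat.add (nat_lit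 0xce5d61c66da2ca4d20c275c34c554144658248450040ffeefaf7ce78beeaeab6ca68df6cf2d74c709e68e29648607de6da75c6583ce2ca34c2485d64d25544501c60c2144040ffeefaf7ce78beeaeab6ca68df6cf2d74c709e68e29648607de6da75c6583ce2ca34c2485d64d25544501c60c2144040ff7f757d7755fb6f34) (Nat.shiftLeft (Nat.add (nat_lit 0x8248450040ffeefaf7ce78beeaeab6ca68df6cf2d74c709e68e29648607de6da75c6583ce2ca34c2485d64d25544501c60c2144040ffebeedf69e6efaaeacf28e2f7cb6cd74964e78a68c708607de3ce5d61c66da2ca4d20c275c34c554144658248450040ffebeedf69e6efaaeacf28e2f7cb6cd74964e78a68c708607de3) (Nat.shiftLeft (Nat.add (nat_lit 0xdf5cf1db4cb05d54d1594490bedae9bacaa83cd2c938c2889e58e19a48a01c50c1184080ffdef9fbceb87dd6d979c698df5cf1db4cb05d54d1594490bedae9bacaa83cd2c938c2889e58e19a48a01c50c1184080ffebeedf69e6efaaeacf28e2f7cb6cd74964e78a68c708607de3ce5d61c66da2ca4d20c275c34c55414465) (Nat.shiftLeft (Nat.add (nat_lit 0xa83cd2c938c2889e58e19a48a01c50c1184080ff7be7fb6ba67d73c7796386f75b65f34b24755345714304ef3ae3eb2aa26d32c3692282e71a61e30a20651241610200ff7be7fb6ba67d73c7796386f75b65f34b24755345714304ef3ae3eb2aa26d32c3692282e71a61e30a20651241610200ffdef9fbceb87dd6d979c698)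 (Nat.shiftLeft (Nat.add (nat_lit 0x80ffd7dddf55d5ef96d9cf14d1fbc79cdb4594eb8698cb0490bed3cd9e51c5ae92c98e10c1bac38c9a4184aa82888a0080ff7be7fb6ba67d73c7796386f75b65f34b24755345714304ef3ae3eb2aa26d32c3692282e71a61e30a20651241610200ffdef9fbceb87dd6d979c698df5cf1db4cb05d54d1594490bedae9baca) (Nat.shiftLeft (Nat.add (nat_lit 0xf34714ba6386b24304ef36d3e71651ae32c3a61241eb2692e30610aa2282a20200ff77d7f75755be73c7b65345fb6796f34714ba6386b24304ef36d3e71651ae32c3a61241eb2692e30610aa2282a20200ffd7dddf55d5ef96d9cf14d1fbc79cdb4594eb8698cb0490bed3cd9e51c5ae92c98e10c1bac38c9a4184aa82888a) (Nat.shiftLeft (Nat.add (nat_lit 0xca34c2485d64d25544501c60c2144040ff77d7f75755be73c7b65345fb6796f34714ba6386b24304ef36d3e71651ae32c3a61241eb2692e30610aa2282a20200ffd7dddf55d5ef96d9cf14d1fbc79cdb4594eb8698cb0490bed3cd9e51c5ae92c98e10c1bac38c9a4184aa82888a0080ff77d7f75755be73c7b65345fb6796) (Nat.shiftLeft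 (Nat.add (nat_lit 0xdef9fbceb87dd6d979c698df5cf1db4cb05d54d1594490bedae9bacaa83cd2c938c2889e58e19a48a01c50c1184080ffebeedf69e6efaaeacf28e2f7cb6cd74964e78a68c708607de3ce5d61c66da2ca4d20c275c34c554144658248450040ffeefaf7ce78beeaeab6ca68df6cf2d74c709e68e29648607de6da75c6583ce2) (Nat.shiftLeft (Nat.add (nat_lit 0xba6386b24304ef36d3e71651ae32c3a61241eb2692e30610aa2282a20200ffd7dddf55d5ef96d9cf14d1fbc79cdb4594eb8698cb0490bed3cd9e51c5ae92c98e10c1bac38c9a4184aa82888a0080ff7be7fb6ba67d73c7796386f75b65f34b24755345714304ef3ae3eb2aa26d32c3692282e71a61e30a20651241610200ff) (Nat.shiftLeft (Nat.add (nat_lit 0x2074d70c545504649608441400ffbfbaf79f38bebbaab69b287db79a7597183cb38a349308df3db2d71d309e39a29619205d35925515101c3182141100ffbfbaf79f38bebbaab69b287db79a7597183cb38a349308df3db2d71d309e39a29619205d35925515101c3182141100ff77d7f75755be73c7b65345fb6796f34714) (Nat.shiftLeft (Nat.add (nat_lit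 0x9f38bebbaab69b287db79a7597183cb38a349308df3db2d71d309e39a29619205d35925515101c3182141100feffaede7da6eebeaace3ca27cf78e5c75866cb68a4c3482f6df2cd65d24e69e28c61c2074d70c545504649608441400feffaede7da6eebeaace3ca27cf78e5c75866cb68a4c3482f6df2cd65d24e69e28c61c) (Nat.shiftLeft (Nat.add (nat_lit 0x38a308df3d71db2d305d35515925109e39619a29201c3141182100ffbf79fbaf387db75979a718bebb69baab283cb34938a308df3d71db2d305d35515925109e39619a29201c3141182100feffaede7da6eebeaace3ca27cf78e5c75866cb68a4c3482f6df2cd65d24e69e28c61c2074d70c545504649608441400ffbfbaf7) (Nat.shiftLeft (Nat.add (nat_lit 0x619a29201c3141182100fefde7faeda67cf5c778e586eebce3eaaca26cb4c368a482f6dd65f2cd2474d54570c504e69c61e28c20649441608400fefde7faeda67cf5c778e586eebce3eaaca26cb4c368a482f6dd65f2cd2474d54570c504e69c61e28c20649441608400ffbf79fbaf387db75979a718bebb69baab283cb349) (Nat.shiftLeft (Nat.add (nat_lit 0xbe59cd3c51bcfb4d9c7945acba498c3841f9ef1cd96d14e9ae18c92c10b8eb0c986904a8aa08882800fefde7faeda67cf5c778e586eebce3eaaca26cb4c368a482f6dd65f2cd2474d54570c504e69c61e28c20649441608400ffbf79fbaf387db75979a718bebb69baab283cb34938a308df3d71db2d305d35515925109e39)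 (Nat.shiftLeft (Nat.add (nat_lit 0xf9ed96f1cd14b8e986b0c904e9ac92e18c10a8a882a08800fdfdd7f5dd55bcf9c7b4d945edbcd3e59c51acb8c3a49841f9ed96f1cd14b8e986b0c904e9ac92e18c10a8a882a08800fdff5ddd7d55edbe59cd3c51bcfb4d9c7945acba498c3841f9ef1cd96d14e9ae18c92c10b8eb0c986904a8aa08882800fdff5ddd7d55ed) (Nat.shiftLeft (Nat.add (nat_lit 0x101c3182141100fdfdd7f5dd55bcf9c7b4d945edbcd3e59c51acb8c3a49841f9ed96f1cd14b8e986b0c904e9ac92e18c10a8a882a08800fdff5ddd7d55edbe59cd3c51bcfb4d9c7945acba498c3841f9ef1cd96d14e9ae18c92c10b8eb0c986904a8aa08882800fdfdd7f5dd55bcf9c7b4d945edbcd3e59c51acb8c3a49841) (Nat.shiftLeft (Nat.add (nat_lit 0xa718bebb69baab283cb34938a308df3d71db2d305d35515925109e39619a29201c3141182100feffaede7da6eebeaace3ca27cf78e5c75866cb68a4c3482f6df2cd65d24e69e28c61c2074d70c545504649608441400ffbfbaf79f38bebbaab69b287db79a7597183cb38a349308df3db2d71d309e39a29619205d35925515) (Nat.shiftLeft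 (Nat.add (nat_lit 0xf1cd14b8e986b0c904e9ac92e18c10a8a882a08800fdff5ddd7d55edbe59cd3c51bcfb4d9c7945acba498c3841f9ef1cd96d14e9ae18c92c10b8eb0c986904a8aa08882800fefde7faeda67cf5c778e586eebce3eaaca26cb4c368a482f6dd65f2cd2474d54570c504e69c61e28c20649441608400ffbf79fbaf387db75979) (Nat.shiftLeft (Nat.add (nat_lit 0x20504400ffbbeb7db3cbfbabaa79a38af79b69759349f38b28718308df39e35d31c3db29a2592182d71961551141d30920510100ffbbeb7db3cbfbabaa79a38af79b69759349f38b28718308df39e35d31c3db29a2592182d71961551141d30920510100fdfdd7f5dd55bcf9c7b4d945edbcd3e59c51acb8c3a49841f9ed96) (Nat.shiftLeft (Nat.add (nat_lit 0x9b69759349f38b28718308df39e35d31c3db29a2592182d71961551141d30920510100fefeeb7cf6cbfaeeaa78e68ade7ce35c74c3da6ca2586482f6de6974d649f2ce2870c608d65c61545441d24c20504400fefeeb7cf6cbfaeeaa78e68ade7ce35c74c3da6ca2586482f6de6974d649f2ce2870c608d65c61545441d24c) (Nat.shiftLeft (Nat.add (nat_lit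 0xd71551961141db25929a2182d30510920100ffb7dbbeb3cbf79759b69349fba79abaa38af38718b28308df35d39e31c3d71551961141db25929a2182d30510920100fefeeb7cf6cbfaeeaa78e68ade7ce35c74c3da6ca2586482f6de6974d649f2ce2870c608d65c61545441d24c20504400ffbbeb7db3cbfbabaa79a38af7) (Nat.shiftLeft (Nat.add (nat_lit 0xfef7cfeeb6cbde75c7ce34c3fae78eeaa68ada6586ca2482f6d74de69649d65545c61441f2c70ce28608d24504c20400fef7cfeeb6cbde75c7ce34c3fae78eeaa68ada6586ca2482f6d74de69649d65545c61441f2c70ce28608d24504c20400ffb7dbbeb3cbf79759b69349fba79abaa38af38718b28308df35d39e31c3) (Nat.shiftLeft (Nat.add (nat_lit 0x78c3d55c51945841f9ee9ab8ea8af1ce18b0ca08d96c92986882d14c10904800fef7cfeeb6cbde75c7ce34c3fae78eeaa68ada6586ca2482f6d74de69649d65545c61441f2c70ce28608d24504c20400ffb7dbbeb3cbf79759b69349fba79abaa38af38718b28308df35d39e31c3d71551961141db25929a2182d305109201) (Nat.shiftLeft (Nat.add (nat_lit 0xc92882f1cb0ce18a08d14904c10800fdfbcfedbacbdd79c7cd38c3f5db4de59a49d55945c51841f9eb8ee9aa8ad96986c92882f1cb0ce18a08d14904c10800fdfedbbcfacbf5de59b4da49dd7cd39c78c3d55c51945841f9ee9ab8ea8af1ce18b0ca08d96c92986882d14c10904800fdfedbbcfacbf5de59b4da49dd7cd39c)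 (Nat.shiftLeft (Nat.add (nat_lit 0xcfedbacbdd79c7cd38c3f5db4de59a49d55945c51841f9eb8ee9aa8ad96986c92882f1cb0ce18a08d14904c10800fdfedbbcfacbf5de59b4da49dd7cd39c78c3d55c51945841f9ee9ab8ea8af1ce18b0ca08d96c92986882d14c10904800fdfbcfedbacbdd79c7cd38c3f5db4de59a49d55945c51841f9eb8ee9aa8ad96986) (Nat.shiftLeft (Nat.add (nat_lit 0x8718b28308df35d39e31c3d71551961141db25929a2182d30510920100fefeeb7cf6cbfaeeaa78e68ade7ce35c74c3da6ca2586482f6de6974d649f2ce2870c608d65c61545441d24c20504400ffbbeb7db3cbfbabaa79a38af79b69759349f38b28718308df39e35d31c3db29a2592182d71961551141d30920510100fdfb) (Nat.shiftLeft (Nat.add (nat_lit 0xf1cb0ce18a08d14904c10800fdfedbbcfacbf5de59b4da49dd7cd39c78c3d55c51945841f9ee9ab8ea8af1ce18b0ca08d96c92986882d14c10904800fef7cfeeb6cbde75c7ce34c3fae78eeaa68ada6586ca2482f6d74de69649d65545c61441f2c70ce28608d24504c20400ffb7dbbeb3cbf79759b69349fba79abaa38af3) (Nat.shiftLeft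 (Nat.add (nat_lit 0xe6f7cd74b6c964efacf2aea8e2e78c70a688607de5d63ce1c675c55434c1446da4d22ca0c2658450248040ffef7cefae78df6d74cf2c70beeb6caeaa689e69648e28607de75c6da6585d65544d24503ce34c2ca2481c61440c2040fdfbcfedbacbdd79c7cd38c3f5db4de59a49d55945c51841f9eb8ee9aa8ad96986c92882) (Nat.shiftLeft (Nat.add (nat_lit 0x8490bed9e53cd1c5bac9a438c184ae98e12c90c1aa88a0288080ff7fb6be7ba6f75f34b65b247d77963c7386755714345304ef3eb2ae3aa2e71e30a61a206d36922c3282651610241200ffdfbcef9eb8df5db4cf1cb07dd79c6d96985d55944d1490bedbacae9aa89e59a48e18a03cd38c2c92881c51840c1080ffedf6bee9) (Nat.shiftLeft (Nat.add (nat_lit 0x554144658248450040ffeefaf7ce78beeaeab6ca68df6cf2d74c709e68e29648607de6da75c6583ce2ca34c2485d64d25544501c60c2144040ff7f757d7755fb6f34796714be7b653c7345ba6b24386304ef3e716d3651eb2e30692610ae3a612c3241aa2a20282200ffddf57dd5d5fbcdb479c594ef9cf16d94d1eb8cb069) (Nat.shiftLeft (Nat.add (nat_lit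 0xc7796386f75b65f34b24755345714304ef3ae3eb2aa26d32c3692282e71a61e30a20651241610200ffdef9fbceb87dd6d979c698df5cf1db4cb05d54d1594490bedae9bacaa83cd2c938c2889e58e19a48a01c50c1184080ffebeedf69e6efaaeacf28e2f7cb6cd74964e78a68c708607de3ce5d61c66da2ca4d20c275c34c) (Nat.shiftLeft (Nat.add (nat_lit 0x3db2d71d309e39a29619205d35925515101c3182141100ff77d7f75755be73c7b65345fb6796f34714ba6386b24304ef36d3e71651ae32c3a61241eb2692e30610aa2282a20200ffd7dddf55d5ef96d9cf14d1fbc79cdb4594eb8698cb0490bed3cd9e51c5ae92c98e10c1bac38c9a4184aa82888a0080ff7be7fb6ba67d73) (Nat.shiftLeft (Nat.add (nat_lit 0x649441608400ffbf79fbaf387db75979a718bebb69baab283cb34938a308df3d71db2d305d35515925109e39619a29201c3141182100feffaede7da6eebeaace3ca27cf78e5c75866cb68a4c3482f6df2cd65d24e69e28c61c2074d70c545504649608441400ffbfbaf79f38bebbaab69b287db79a7597183cb38a349308df) (Nat.shiftLeft (Nat.add (nat_lit 0x45edbcd3e59c51acb8c3a49841f9ed96f1cd14b8e986b0c904e9ac92e18c10a8a882a08800fdff5ddd7d55edbe59cd3c51bcfb4d9c7945acba498c3841f9ef1cd96d14e9ae18c92c10b8eb0c986904a8aa08882800fefde7faeda67cf5c778e586eebce3eaaca26cb4c368a482f6dd65f2cd2474d54570c504e69c61e28c20)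 (Nat.shiftLeft (Nat.add (nat_lit 0x31c3d71551961141db25929a2182d30510920100fefeeb7cf6cbfaeeaa78e68ade7ce35c74c3da6ca2586482f6de6974d649f2ce2870c608d65c61545441d24c20504400ffbbeb7db3cbfbabaa79a38af79b69759349f38b28718308df39e35d31c3db29a2592182d71961551141d30920510100fdfdd7f5dd55bcf9c7b4d9) (Nat.shiftLeft (Nat.add (nat_lit 0xc10800fdfedbbcfacbf5de59b4da49dd7cd39c78c3d55c51945841f9ee9ab8ea8af1ce18b0ca08d96c92986882d14c10904800fef7cfeeb6cbde75c7ce34c3fae78eeaa68ada6586ca2482f6d74de69649d65545c61441f2c70ce28608d24504c20400ffb7dbbeb3cbf79759b69349fba79abaa38af38718b28308df35d39e) (Nat.shiftLeft (nat_lit 0xfdfbcfedbacbdd79c7cd38c3f5db4de59a49d55945c51841f9eb8ee9aa8ad96986c92882f1cb0ce18a08d14904) (nat_lit 1016))) (nat_lit 1016))) (nat_lit 1016))) (nat_lit 1016))) (nat_lit 1016))) (nat_lit 1016))) (nat_lit 1016))) (nat_lit 1016))) (nat_lit 1016))) (nat_lit 1016))) (nat_lit 1016)))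 (nat_lit 1016))) (nat_lit 1016))) (nat_lit 1016))) (nat_lit 1016))) (nat_lit 1016))) (nat_lit 1016))) (nat_lit 1016))) (nat_lit 1016))) (nat_lit 1016))) (nat_lit 1016))) (nat_lit 1016))) (nat_lit 1016))) (nat_lit 1016))) (nat_lit 1016))) (nat_lit 1016))) (nat_lit 1016))) (nat_lit 1016))) (nat_lit 1016))) (nat_lit 1016))) (nat_lit 1016))) (nat_lit 1016))) (nat_lit 1016))) (nat_lit 1016))) (nat_lit 1016))) (nat_lit 1016))) (nat_lit 1016))) (nat_lit 1016))) (nat_lit 1016))) (nat_lit 1016))) (nat_lit 1016))) (nat_lit 1016))) (nat_lit 1016))) (nat_lit 1016))) (nat_lit 1016)))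

/-- The programs for the blocks. -/
noncomputable def PGB : List (List (ℕ × ℕ × ℕ)) := [
  [],
  [(nat_lit 1, nat_lit 2, nat_lit 3), (nat_lit 1, nat_lit 6, nat_lit 7)],
  [(nat_lit 1, nat_lit 1, nat_lit 2), (nat_lit 1, nat_lit 5, nat_lit 6)],
  [(nat_lit 1, nat_lit 1, nat_lit 2), (nat_lit 1, nat_lit 1, nat_lit 3), (nat_lit 1, nat_lit 5, nat_lit 6), (nat_lit 1, nat_lit 5, nat_lit 7)],
  [(nat_lit 1, nat_lit 1, nat_lit 3), (nat_lit 1, nat_lit 1, nat_lit 2), (nat_lit 1, nat_lit 5, nat_lit 7), (nat_lit 1, nat_lit 5, nat_lit 6)],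
  [(nat_lit 1, nat_lit 1, nat_lit 3), (nat_lit 1, nat_lit 5, nat_lit 7)],
  [(nat_lit 1, nat_lit 0, nat_lit 1), (nat_lit 1, nat_lit 4, nat_lit 5)],
  [(nat_lit 1, nat_lit 0, nat_lit 1), (nat_lit 1, nat_lit 2, nat_lit 3), (nat_lit 1, nat_lit 4, nat_lit 5), (nat_lit 1, nat_lit 6, nat_lit 7)],
  [(nat_lit 1, nat_lit 0, nat_lit 1), (nat_lit 1, nat_lit 0, nat_lit 2), (nat_lit 1, nat_lit 4, nat_lit 5), (nat_lit 1, nat_lit 4, nat_lit 6)],
  [(nat_lit 1, nat_lit 0, nat_lit 1), (nat_lit 1, nat_lit 0, nat_lit 2), (nat_lit 1, nat_lit 0, nat_lit 3), (nat_lit 1, nat_lit 4, nat_lit 5), (nat_lit 1, nat_lit 4, nat_lit 6), (nat_lit 1, nat_lit 4, nat_lit 7)],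
  [(nat_lit 1, nat_lit 0, nat_lit 1), (nat_lit 1, nat_lit 0, nat_lit 3), (nat_lit 1, nat_lit 0, nat_lit 2), (nat_lit 1, nat_lit 4, nat_lit 5), (nat_lit 1, nat_lit 4, nat_lit 7), (nat_lit 1, nat_lit 4, nat_lit 6)],
  [(nat_lit 1, nat_lit 0, nat_lit 1), (nat_lit 1, nat_lit 0, nat_lit 3), (nat_lit 1, nat_lit 4, nat_lit 5), (nat_lit 1, nat_lit 4, nat_lit 7)],
  [(nat_lit 1, nat_lit 0, nat_lit 2), (nat_lit 1, nat_lit 0, nat_lit 1), (nat_lit 1, nat_lit 4, nat_lit 6), (nat_lit 1, nat_lit 4, nat_lit 5)],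
  [(nat_lit 1, nat_lit 0, nat_lit 2), (nat_lit 1, nat_lit 0, nat_lit 1), (nat_lit 1, nat_lit 1, nat_lit 3), (nat_lit 1, nat_lit 4, nat_lit 6), (nat_lit 1, nat_lit 4, nat_lit 5), (nat_lit 1, nat_lit 5, nat_lit 7)],
  [(nat_lit 1, nat_lit 0, nat_lit 2), (nat_lit 1, nat_lit 4, nat_lit 6)],
  [(nat_lit 1, nat_lit 0, nat_lit 2), (nat_lit 1, nat_lit 0, nat_lit 3), (nat_lit 1, nat_lit 4, nat_lit 6), (nat_lit 1, nat_lit 4, nat_lit 7)],
  [(nat_lit 1, nat_lit 0, nat_lit 2), (nat_lit 1, nat_lit 1, nat_lit 3), (nat_lit 1, nat_lit 4, nat_lit 6), (nat_lit 1, nat_lit 5, nat_lit 7)],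
  [(nat_lit 1, nat_lit 0, nat_lit 2), (nat_lit 1, nat_lit 1, nat_lit 3), (nat_lit 1, nat_lit 0, nat_lit 1), (nat_lit 1, nat_lit 4, nat_lit 6), (nat_lit 1, nat_lit 5, nat_lit 7), (nat_lit 1, nat_lit 4, nat_lit 5)],
  [(nat_lit 1, nat_lit 0, nat_lit 3), (nat_lit 1, nat_lit 0, nat_lit 1), (nat_lit 1, nat_lit 1, nat_lit 2), (nat_lit 1, nat_lit 4, nat_lit 7), (nat_lit 1, nat_lit 4, nat_lit 5), (nat_lit 1, nat_lit 5, nat_lit 6)],
  [(nat_lit 1, nat_lit 0, nat_lit 3), (nat_lit 1, nat_lit 0, nat_lit 1), (nat_lit 1, nat_lit 4, nat_lit 7), (nat_lit 1, nat_lit 4, nat_lit 5)],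
  [(nat_lit 1, nat_lit 0, nat_lit 3), (nat_lit 1, nat_lit 0, nat_lit 2), (nat_lit 1, nat_lit 4, nat_lit 7), (nat_lit 1, nat_lit 4, nat_lit 6)],
  [(nat_lit 1, nat_lit 0, nat_lit 3), (nat_lit 1, nat_lit 4, nat_lit 7)],
  [(nat_lit 1, nat_lit 0, nat_lit 3), (nat_lit 1, nat_lit 1, nat_lit 2), (nat_lit 1, nat_lit 0, nat_lit 1), (nat_lit 1, nat_lit 4, nat_lit 7), (nat_lit 1, nat_lit 5, nat_lit 6), (nat_lit 1, nat_lit 4, nat_lit 5)],
  [(nat_lit 1, nat_lit 0, nat_lit 3), (nat_lit 1, nat_lit 1, nat_lit 2), (nat_lit 1, nat_lit 4, nat_lit 7), (nat_lit 1, nat_lit 5, nat_lit 6)]]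

/-- The programs for the rows. -/
noncomputable def PGR : List (List (List (ℕ × ℕ × ℕ))) := [
  [[],
   [(nat_lit 1, nat_lit 3, nat_lit 6), (nat_lit 1, nat_lit 4, nat_lit 7), (nat_lit 1, nat_lit 5, nat_lit 8)],
   [(nat_lit 1, nat_lit 1, nat_lit 3), (nat_lit 1, nat_lit 2, nat_lit 4), (nat_lit 1, nat_lit 8, nat_lit 9)],
   [(nat_lit 1, nat_lit 1, nat_lit 3), (nat_lit 1, nat_lit 2, nat_lit 4), (nat_lit 1, nat_lit 1, nat_lit 6), (nat_lit 1, nat_lit 2, nat_lit 7), (nat_lit 1, nat_lit 5, nat_lit 9), (nat_lit 1, nat_lit 5, nat_lit 8)],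
   [(nat_lit 1, nat_lit 1, nat_lit 6), (nat_lit 1, nat_lit 2, nat_lit 7), (nat_lit 1, nat_lit 1, nat_lit 3), (nat_lit 1, nat_lit 2, nat_lit 4), (nat_lit 1, nat_lit 5, nat_lit 8), (nat_lit 1, nat_lit 5, nat_lit 9)],
   [(nat_lit 1, nat_lit 1, nat_lit 6), (nat_lit 1, nat_lit 2, nat_lit 7), (nat_lit 1, nat_lit 5, nat_lit 9)],
   [(nat_lit 1, nat_lit 0, nat_lit 1), (nat_lit 1, nat_lit 4, nat_lit 5), (nat_lit 1, nat_lit 7, nat_lit 8)],
   [(nat_lit 1, nat_lit 0, nat_lit 1), (nat_lit 1, nat_lit 3, nat_lit 6), (nat_lit 1, nat_lit 4, nat_lit 8), (nat_lit 1, nat_lit 5, nat_lit 7)],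
   [(nat_lit 1, nat_lit 0, nat_lit 1), (nat_lit 1, nat_lit 0, nat_lit 3), (nat_lit 1, nat_lit 2, nat_lit 5), (nat_lit 1, nat_lit 2, nat_lit 4), (nat_lit 1, nat_lit 7, nat_lit 8), (nat_lit 1, nat_lit 7, nat_lit 9)],
   [(nat_lit 1, nat_lit 0, nat_lit 1), (nat_lit 1, nat_lit 0, nat_lit 3), (nat_lit 1, nat_lit 2, nat_lit 5), (nat_lit 1, nat_lit 0, nat_lit 6), (nat_lit 1, nat_lit 4, nat_lit 8), (nat_lit 1, nat_lit 2, nat_lit 9), (nat_lit 1, nat_lit 2, nat_lit 7)],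
   [(nat_lit 1, nat_lit 0, nat_lit 1), (nat_lit 1, nat_lit 0, nat_lit 6), (nat_lit 1, nat_lit 2, nat_lit 8), (nat_lit 1, nat_lit 0, nat_lit 3), (nat_lit 1, nat_lit 2, nat_lit 4), (nat_lit 1, nat_lit 5, nat_lit 7), (nat_lit 1, nat_lit 4, nat_lit 9)],
   [(nat_lit 1, nat_lit 0, nat_lit 1), (nat_lit 1, nat_lit 0, nat_lit 6), (nat_lit 1, nat_lit 2, nat_lit 8), (nat_lit 1, nat_lit 4, nat_lit 5), (nat_lit 1, nat_lit 4, nat_lit 9), (nat_lit 1, nat_lit 2, nat_lit 7)]],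
  [[(nat_lit 1, nat_lit 0, nat_lit 3), (nat_lit 1, nat_lit 0, nat_lit 1), (nat_lit 1, nat_lit 2, nat_lit 4), (nat_lit 1, nat_lit 2, nat_lit 5), (nat_lit 1, nat_lit 7, nat_lit 9), (nat_lit 1, nat_lit 7, nat_lit 8)],
   [(nat_lit 1, nat_lit 0, nat_lit 3), (nat_lit 1, nat_lit 0, nat_lit 1), (nat_lit 1, nat_lit 2, nat_lit 4), (nat_lit 1, nat_lit 1, nat_lit 6), (nat_lit 1, nat_lit 2, nat_lit 9), (nat_lit 1, nat_lit 5, nat_lit 7), (nat_lit 1, nat_lit 2, nat_lit 8)],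
   [(nat_lit 1, nat_lit 0, nat_lit 3), (nat_lit 1, nat_lit 2, nat_lit 5), (nat_lit 1, nat_lit 7, nat_lit 9)],
   [(nat_lit 1, nat_lit 0, nat_lit 3), (nat_lit 1, nat_lit 2, nat_lit 5), (nat_lit 1, nat_lit 0, nat_lit 6), (nat_lit 1, nat_lit 4, nat_lit 9), (nat_lit 1, nat_lit 2, nat_lit 8), (nat_lit 1, nat_lit 4, nat_lit 7)],
   [(nat_lit 1, nat_lit 0, nat_lit 3), (nat_lit 1, nat_lit 1, nat_lit 6), (nat_lit 1, nat_lit 2, nat_lit 9), (nat_lit 1, nat_lit 5, nat_lit 7)],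
   [(nat_lit 1, nat_lit 0, nat_lit 3), (nat_lit 1, nat_lit 1, nat_lit 6), (nat_lit 1, nat_lit 2, nat_lit 9), (nat_lit 1, nat_lit 0, nat_lit 1), (nat_lit 1, nat_lit 4, nat_lit 5), (nat_lit 1, nat_lit 4, nat_lit 8), (nat_lit 1, nat_lit 4, nat_lit 7)],
   [(nat_lit 1, nat_lit 0, nat_lit 6), (nat_lit 1, nat_lit 0, nat_lit 1), (nat_lit 1, nat_lit 2, nat_lit 7), (nat_lit 1, nat_lit 1, nat_lit 3), (nat_lit 1, nat_lit 4, nat_lit 8), (nat_lit 1, nat_lit 2, nat_lit 5), (nat_lit 1, nat_lit 5, nat_lit 9)],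
   [(nat_lit 1, nat_lit 0, nat_lit 6), (nat_lit 1, nat_lit 0, nat_lit 1), (nat_lit 1, nat_lit 2, nat_lit 7), (nat_lit 1, nat_lit 4, nat_lit 9), (nat_lit 1, nat_lit 4, nat_lit 5), (nat_lit 1, nat_lit 2, nat_lit 8)],
   [(nat_lit 1, nat_lit 0, nat_lit 6), (nat_lit 1, nat_lit 2, nat_lit 8), (nat_lit 1, nat_lit 0, nat_lit 3), (nat_lit 1, nat_lit 4, nat_lit 7), (nat_lit 1, nat_lit 2, nat_lit 5), (nat_lit 1, nat_lit 4, nat_lit 9)],
   [(nat_lit 1, nat_lit 0, nat_lit 6), (nat_lit 1, nat_lit 2, nat_lit 8), (nat_lit 1, nat_lit 4, nat_lit 9)],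
   [(nat_lit 1, nat_lit 0, nat_lit 6), (nat_lit 1, nat_lit 1, nat_lit 3), (nat_lit 1, nat_lit 2, nat_lit 9), (nat_lit 1, nat_lit 0, nat_lit 1), (nat_lit 1, nat_lit 4, nat_lit 7), (nat_lit 1, nat_lit 4, nat_lit 5), (nat_lit 1, nat_lit 5, nat_lit 8)],
   [(nat_lit 1, nat_lit 0, nat_lit 6), (nat_lit 1, nat_lit 1, nat_lit 3), (nat_lit 1, nat_lit 2, nat_lit 9), (nat_lit 1, nat_lit 4, nat_lit 8)]],
  [[(nat_lit 1, nat_lit 1, nat_lit 2), (nat_lit 1, nat_lit 3, nat_lit 4), (nat_lit 1, nat_lit 6, nat_lit 7)],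
   [(nat_lit 1, nat_lit 1, nat_lit 2), (nat_lit 1, nat_lit 3, nat_lit 7), (nat_lit 1, nat_lit 4, nat_lit 6), (nat_lit 1, nat_lit 5, nat_lit 8)],
   [(nat_lit 1, nat_lit 1, nat_lit 4), (nat_lit 1, nat_lit 2, nat_lit 3), (nat_lit 1, nat_lit 6, nat_lit 7), (nat_lit 1, nat_lit 8, nat_lit 9)],
   [(nat_lit 1, nat_lit 1, nat_lit 4), (nat_lit 1, nat_lit 2, nat_lit 3), (nat_lit 1, nat_lit 2, nat_lit 7), (nat_lit 1, nat_lit 1, nat_lit 6), (nat_lit 1, nat_lit 5, nat_lit 9), (nat_lit 1, nat_lit 1, nat_lit 2), (nat_lit 1, nat_lit 5, nat_lit 8)],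
   [(nat_lit 1, nat_lit 1, nat_lit 7), (nat_lit 1, nat_lit 2, nat_lit 6), (nat_lit 1, nat_lit 2, nat_lit 3), (nat_lit 1, nat_lit 1, nat_lit 4), (nat_lit 1, nat_lit 5, nat_lit 8), (nat_lit 1, nat_lit 3, nat_lit 4), (nat_lit 1, nat_lit 5, nat_lit 9)],
   [(nat_lit 1, nat_lit 1, nat_lit 7), (nat_lit 1, nat_lit 2, nat_lit 6), (nat_lit 1, nat_lit 3, nat_lit 4), (nat_lit 1, nat_lit 5, nat_lit 9)],
   [(nat_lit 1, nat_lit 0, nat_lit 2), (nat_lit 1, nat_lit 0, nat_lit 1), (nat_lit 1, nat_lit 3, nat_lit 4), (nat_lit 1, nat_lit 3, nat_lit 5), (nat_lit 1, nat_lit 6, nat_lit 7), (nat_lit 1, nat_lit 6, nat_lit 8)],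
   [(nat_lit 1, nat_lit 0, nat_lit 2), (nat_lit 1, nat_lit 0, nat_lit 1), (nat_lit 1, nat_lit 3, nat_lit 7), (nat_lit 1, nat_lit 4, nat_lit 8), (nat_lit 1, nat_lit 5, nat_lit 6), (nat_lit 1, nat_lit 4, nat_lit 5), (nat_lit 1, nat_lit 3, nat_lit 5)],
   [(nat_lit 1, nat_lit 0, nat_lit 2), (nat_lit 1, nat_lit 1, nat_lit 4), (nat_lit 1, nat_lit 0, nat_lit 5), (nat_lit 1, nat_lit 0, nat_lit 3), (nat_lit 1, nat_lit 6, nat_lit 7), (nat_lit 1, nat_lit 6, nat_lit 8), (nat_lit 1, nat_lit 6, nat_lit 9)],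
   [(nat_lit 1, nat_lit 0, nat_lit 2), (nat_lit 1, nat_lit 1, nat_lit 4), (nat_lit 1, nat_lit 0, nat_lit 5), (nat_lit 1, nat_lit 3, nat_lit 7), (nat_lit 1, nat_lit 1, nat_lit 8), (nat_lit 1, nat_lit 0, nat_lit 9), (nat_lit 1, nat_lit 0, nat_lit 6), (nat_lit 1, nat_lit 1, nat_lit 3)],
   [(nat_lit 1, nat_lit 0, nat_lit 2), (nat_lit 1, nat_lit 1, nat_lit 7), (nat_lit 1, nat_lit 0, nat_lit 8), (nat_lit 1, nat_lit 0, nat_lit 3), (nat_lit 1, nat_lit 1, nat_lit 4), (nat_lit 1, nat_lit 5, nat_lit 6), (nat_lit 1, nat_lit 4, nat_lit 5), (nat_lit 1, nat_lit 3, nat_lit 9)],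
   [(nat_lit 1, nat_lit 0, nat_lit 2), (nat_lit 1, nat_lit 1, nat_lit 7), (nat_lit 1, nat_lit 0, nat_lit 8), (nat_lit 1, nat_lit 3, nat_lit 4), (nat_lit 1, nat_lit 3, nat_lit 5), (nat_lit 1, nat_lit 3, nat_lit 9), (nat_lit 1, nat_lit 0, nat_lit 6)]],
  [[(nat_lit 1, nat_lit 0, nat_lit 4), (nat_lit 1, nat_lit 0, nat_lit 1), (nat_lit 1, nat_lit 2, nat_lit 3), (nat_lit 1, nat_lit 1, nat_lit 5), (nat_lit 1, nat_lit 6, nat_lit 7), (nat_lit 1, nat_lit 6, nat_lit 9), (nat_lit 1, nat_lit 6, nat_lit 8)],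
   [(nat_lit 1, nat_lit 0, nat_lit 4), (nat_lit 1, nat_lit 0, nat_lit 1), (nat_lit 1, nat_lit 2, nat_lit 3), (nat_lit 1, nat_lit 2, nat_lit 7), (nat_lit 1, nat_lit 1, nat_lit 9), (nat_lit 1, nat_lit 5, nat_lit 6), (nat_lit 1, nat_lit 2, nat_lit 5), (nat_lit 1, nat_lit 1, nat_lit 8)],
   [(nat_lit 1, nat_lit 0, nat_lit 4), (nat_lit 1, nat_lit 1, nat_lit 2), (nat_lit 1, nat_lit 1, nat_lit 5), (nat_lit 1, nat_lit 0, nat_lit 3), (nat_lit 1, nat_lit 6, nat_lit 7), (nat_lit 1, nat_lit 6, nat_lit 9)],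
   [(nat_lit 1, nat_lit 0, nat_lit 4), (nat_lit 1, nat_lit 1, nat_lit 2), (nat_lit 1, nat_lit 1, nat_lit 5), (nat_lit 1, nat_lit 3, nat_lit 7), (nat_lit 1, nat_lit 0, nat_lit 9), (nat_lit 1, nat_lit 1, nat_lit 8), (nat_lit 1, nat_lit 0, nat_lit 6)],
   [(nat_lit 1, nat_lit 0, nat_lit 4), (nat_lit 1, nat_lit 1, nat_lit 7), (nat_lit 1, nat_lit 2, nat_lit 9), (nat_lit 1, nat_lit 0, nat_lit 3), (nat_lit 1, nat_lit 5, nat_lit 6), (nat_lit 1, nat_lit 2, nat_lit 5), (nat_lit 1, nat_lit 1, nat_lit 5)],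
   [(nat_lit 1, nat_lit 0, nat_lit 4), (nat_lit 1, nat_lit 1, nat_lit 7), (nat_lit 1, nat_lit 2, nat_lit 9), (nat_lit 1, nat_lit 2, nat_lit 3), (nat_lit 1, nat_lit 0, nat_lit 5), (nat_lit 1, nat_lit 0, nat_lit 8), (nat_lit 1, nat_lit 0, nat_lit 6), (nat_lit 1, nat_lit 1, nat_lit 3)],
   [(nat_lit 1, nat_lit 0, nat_lit 7), (nat_lit 1, nat_lit 0, nat_lit 1), (nat_lit 1, nat_lit 2, nat_lit 6), (nat_lit 1, nat_lit 2, nat_lit 3), (nat_lit 1, nat_lit 4, nat_lit 8), (nat_lit 1, nat_lit 1, nat_lit 5), (nat_lit 1, nat_lit 3, nat_lit 4), (nat_lit 1, nat_lit 5, nat_lit 9)],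
   [(nat_lit 1, nat_lit 0, nat_lit 7), (nat_lit 1, nat_lit 0, nat_lit 1), (nat_lit 1, nat_lit 2, nat_lit 6), (nat_lit 1, nat_lit 3, nat_lit 4), (nat_lit 1, nat_lit 3, nat_lit 9), (nat_lit 1, nat_lit 3, nat_lit 5), (nat_lit 1, nat_lit 1, nat_lit 8)],
   [(nat_lit 1, nat_lit 0, nat_lit 7), (nat_lit 1, nat_lit 1, nat_lit 2), (nat_lit 1, nat_lit 1, nat_lit 8), (nat_lit 1, nat_lit 0, nat_lit 3), (nat_lit 1, nat_lit 4, nat_lit 6), (nat_lit 1, nat_lit 1, nat_lit 5), (nat_lit 1, nat_lit 3, nat_lit 9)],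
   [(nat_lit 1, nat_lit 0, nat_lit 7), (nat_lit 1, nat_lit 1, nat_lit 2), (nat_lit 1, nat_lit 1, nat_lit 8), (nat_lit 1, nat_lit 3, nat_lit 4), (nat_lit 1, nat_lit 3, nat_lit 9), (nat_lit 1, nat_lit 0, nat_lit 6)],
   [(nat_lit 1, nat_lit 0, nat_lit 7), (nat_lit 1, nat_lit 1, nat_lit 4), (nat_lit 1, nat_lit 2, nat_lit 9), (nat_lit 1, nat_lit 0, nat_lit 3), (nat_lit 1, nat_lit 1, nat_lit 6), (nat_lit 1, nat_lit 3, nat_lit 5), (nat_lit 1, nat_lit 1, nat_lit 2), (nat_lit 1, nat_lit 5, nat_lit 8)],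
   [(nat_lit 1, nat_lit 0, nat_lit 7), (nat_lit 1, nat_lit 1, nat_lit 4), (nat_lit 1, nat_lit 2, nat_lit 9), (nat_lit 1, nat_lit 2, nat_lit 3), (nat_lit 1, nat_lit 1, nat_lit 8), (nat_lit 1, nat_lit 0, nat_lit 6), (nat_lit 1, nat_lit 1, nat_lit 3)]],
  [[(nat_lit 1, nat_lit 0, nat_lit 1), (nat_lit 1, nat_lit 0, nat_lit 2), (nat_lit 1, nat_lit 3, nat_lit 5), (nat_lit 1, nat_lit 3, nat_lit 4), (nat_lit 1, nat_lit 6, nat_lit 8), (nat_lit 1, nat_lit 6, nat_lit 7)],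
   [(nat_lit 1, nat_lit 0, nat_lit 1), (nat_lit 1, nat_lit 0, nat_lit 2), (nat_lit 1, nat_lit 3, nat_lit 8), (nat_lit 1, nat_lit 4, nat_lit 6), (nat_lit 1, nat_lit 5, nat_lit 7), (nat_lit 1, nat_lit 4, nat_lit 5), (nat_lit 1, nat_lit 3, nat_lit 4)],
   [(nat_lit 1, nat_lit 0, nat_lit 1), (nat_lit 1, nat_lit 0, nat_lit 5), (nat_lit 1, nat_lit 2, nat_lit 3), (nat_lit 1, nat_lit 0, nat_lit 4), (nat_lit 1, nat_lit 6, nat_lit 8), (nat_lit 1, nat_lit 6, nat_lit 7), (nat_lit 1, nat_lit 7, nat_lit 9)],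
   [(nat_lit 1, nat_lit 0, nat_lit 1), (nat_lit 1, nat_lit 0, nat_lit 5), (nat_lit 1, nat_lit 2, nat_lit 3), (nat_lit 1, nat_lit 2, nat_lit 8), (nat_lit 1, nat_lit 4, nat_lit 6), (nat_lit 1, nat_lit 0, nat_lit 9), (nat_lit 1, nat_lit 2, nat_lit 4), (nat_lit 1, nat_lit 0, nat_lit 7)],
   [(nat_lit 1, nat_lit 0, nat_lit 1), (nat_lit 1, nat_lit 0, nat_lit 8), (nat_lit 1, nat_lit 2, nat_lit 6), (nat_lit 1, nat_lit 2, nat_lit 3), (nat_lit 1, nat_lit 0, nat_lit 4), (nat_lit 1, nat_lit 5, nat_lit 7), (nat_lit 1, nat_lit 3, nat_lit 5), (nat_lit 1, nat_lit 4, nat_lit 9)],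
   [(nat_lit 1, nat_lit 0, nat_lit 1), (nat_lit 1, nat_lit 0, nat_lit 8), (nat_lit 1, nat_lit 2, nat_lit 6), (nat_lit 1, nat_lit 3, nat_lit 5), (nat_lit 1, nat_lit 3, nat_lit 4), (nat_lit 1, nat_lit 4, nat_lit 9), (nat_lit 1, nat_lit 0, nat_lit 7)],
   [(nat_lit 1, nat_lit 0, nat_lit 2), (nat_lit 1, nat_lit 3, nat_lit 5), (nat_lit 1, nat_lit 6, nat_lit 8)],
   [(nat_lit 1, nat_lit 0, nat_lit 2), (nat_lit 1, nat_lit 3, nat_lit 8), (nat_lit 1, nat_lit 4, nat_lit 7), (nat_lit 1, nat_lit 5, nat_lit 6)],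
   [(nat_lit 1, nat_lit 0, nat_lit 2), (nat_lit 1, nat_lit 1, nat_lit 5), (nat_lit 1, nat_lit 0, nat_lit 4), (nat_lit 1, nat_lit 1, nat_lit 3), (nat_lit 1, nat_lit 6, nat_lit 8), (nat_lit 1, nat_lit 6, nat_lit 9)],
   [(nat_lit 1, nat_lit 0, nat_lit 2), (nat_lit 1, nat_lit 1, nat_lit 5), (nat_lit 1, nat_lit 0, nat_lit 4), (nat_lit 1, nat_lit 3, nat_lit 8), (nat_lit 1, nat_lit 0, nat_lit 7), (nat_lit 1, nat_lit 1, nat_lit 9), (nat_lit 1, nat_lit 1, nat_lit 6)],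
   [(nat_lit 1, nat_lit 0, nat_lit 2), (nat_lit 1, nat_lit 1, nat_lit 8), (nat_lit 1, nat_lit 0, nat_lit 7), (nat_lit 1, nat_lit 1, nat_lit 3), (nat_lit 1, nat_lit 0, nat_lit 4), (nat_lit 1, nat_lit 5, nat_lit 6), (nat_lit 1, nat_lit 3, nat_lit 9)],
   [(nat_lit 1, nat_lit 0, nat_lit 2), (nat_lit 1, nat_lit 1, nat_lit 8), (nat_lit 1, nat_lit 0, nat_lit 7), (nat_lit 1, nat_lit 3, nat_lit 5), (nat_lit 1, nat_lit 3, nat_lit 9), (nat_lit 1, nat_lit 1, nat_lit 6)]],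
  [[(nat_lit 1, nat_lit 0, nat_lit 5), (nat_lit 1, nat_lit 2, nat_lit 3), (nat_lit 1, nat_lit 6, nat_lit 8), (nat_lit 1, nat_lit 7, nat_lit 9)],
   [(nat_lit 1, nat_lit 0, nat_lit 5), (nat_lit 1, nat_lit 2, nat_lit 3), (nat_lit 1, nat_lit 2, nat_lit 8), (nat_lit 1, nat_lit 4, nat_lit 9), (nat_lit 1, nat_lit 0, nat_lit 6), (nat_lit 1, nat_lit 0, nat_lit 2), (nat_lit 1, nat_lit 4, nat_lit 7)],
   [(nat_lit 1, nat_lit 0, nat_lit 5), (nat_lit 1, nat_lit 1, nat_lit 2), (nat_lit 1, nat_lit 1, nat_lit 4), (nat_lit 1, nat_lit 1, nat_lit 3), (nat_lit 1, nat_lit 6, nat_lit 8), (nat_lit 1, nat_lit 7, nat_lit 9), (nat_lit 1, nat_lit 6, nat_lit 7)],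
   [(nat_lit 1, nat_lit 0, nat_lit 5), (nat_lit 1, nat_lit 1, nat_lit 2), (nat_lit 1, nat_lit 1, nat_lit 4), (nat_lit 1, nat_lit 3, nat_lit 8), (nat_lit 1, nat_lit 1, nat_lit 9), (nat_lit 1, nat_lit 0, nat_lit 7), (nat_lit 1, nat_lit 1, nat_lit 6), (nat_lit 1, nat_lit 0, nat_lit 3)],
   [(nat_lit 1, nat_lit 0, nat_lit 5), (nat_lit 1, nat_lit 1, nat_lit 8), (nat_lit 1, nat_lit 2, nat_lit 9), (nat_lit 1, nat_lit 1, nat_lit 3), (nat_lit 1, nat_lit 3, nat_lit 4), (nat_lit 1, nat_lit 0, nat_lit 6), (nat_lit 1, nat_lit 0, nat_lit 2), (nat_lit 1, nat_lit 4, nat_lit 7)],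
   [(nat_lit 1, nat_lit 0, nat_lit 5), (nat_lit 1, nat_lit 1, nat_lit 8), (nat_lit 1, nat_lit 2, nat_lit 9), (nat_lit 1, nat_lit 2, nat_lit 3), (nat_lit 1, nat_lit 0, nat_lit 7), (nat_lit 1, nat_lit 1, nat_lit 6), (nat_lit 1, nat_lit 0, nat_lit 3)],
   [(nat_lit 1, nat_lit 0, nat_lit 8), (nat_lit 1, nat_lit 2, nat_lit 6), (nat_lit 1, nat_lit 2, nat_lit 3), (nat_lit 1, nat_lit 4, nat_lit 7), (nat_lit 1, nat_lit 0, nat_lit 5), (nat_lit 1, nat_lit 3, nat_lit 5), (nat_lit 1, nat_lit 4, nat_lit 9)],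
   [(nat_lit 1, nat_lit 0, nat_lit 8), (nat_lit 1, nat_lit 2, nat_lit 6), (nat_lit 1, nat_lit 3, nat_lit 5), (nat_lit 1, nat_lit 4, nat_lit 9)],
   [(nat_lit 1, nat_lit 0, nat_lit 8), (nat_lit 1, nat_lit 1, nat_lit 2), (nat_lit 1, nat_lit 1, nat_lit 7), (nat_lit 1, nat_lit 1, nat_lit 3), (nat_lit 1, nat_lit 4, nat_lit 6), (nat_lit 1, nat_lit 0, nat_lit 5), (nat_lit 1, nat_lit 4, nat_lit 5), (nat_lit 1, nat_lit 3, nat_lit 9)],
   [(nat_lit 1, nat_lit 0, nat_lit 8), (nat_lit 1, nat_lit 1, nat_lit 2), (nat_lit 1, nat_lit 1, nat_lit 7), (nat_lit 1, nat_lit 3, nat_lit 5), (nat_lit 1, nat_lit 4, nat_lit 9), (nat_lit 1, nat_lit 3, nat_lit 4), (nat_lit 1, nat_lit 1, nat_lit 6)],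
   [(nat_lit 1, nat_lit 0, nat_lit 8), (nat_lit 1, nat_lit 1, nat_lit 5), (nat_lit 1, nat_lit 2, nat_lit 9), (nat_lit 1, nat_lit 1, nat_lit 3), (nat_lit 1, nat_lit 4, nat_lit 6), (nat_lit 1, nat_lit 2, nat_lit 4), (nat_lit 1, nat_lit 0, nat_lit 4)],
   [(nat_lit 1, nat_lit 0, nat_lit 8), (nat_lit 1, nat_lit 1, nat_lit 5), (nat_lit 1, nat_lit 2, nat_lit 9), (nat_lit 1, nat_lit 2, nat_lit 3), (nat_lit 1, nat_lit 4, nat_lit 7), (nat_lit 1, nat_lit 1, nat_lit 4), (nat_lit 1, nat_lit 1, nat_lit 6), (nat_lit 1, nat_lit 0, nat_lit 3)]],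
  [[(nat_lit 1, nat_lit 0, nat_lit 3), (nat_lit 1, nat_lit 1, nat_lit 4), (nat_lit 1, nat_lit 0, nat_lit 2), (nat_lit 1, nat_lit 2, nat_lit 5), (nat_lit 1, nat_lit 6, nat_lit 9), (nat_lit 1, nat_lit 6, nat_lit 7), (nat_lit 1, nat_lit 7, nat_lit 8)],
   [(nat_lit 1, nat_lit 0, nat_lit 3), (nat_lit 1, nat_lit 1, nat_lit 4), (nat_lit 1, nat_lit 0, nat_lit 2), (nat_lit 1, nat_lit 2, nat_lit 9), (nat_lit 1, nat_lit 1, nat_lit 6), (nat_lit 1, nat_lit 5, nat_lit 7), (nat_lit 1, nat_lit 1, nat_lit 5), (nat_lit 1, nat_lit 2, nat_lit 8)],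
   [(nat_lit 1, nat_lit 0, nat_lit 3), (nat_lit 1, nat_lit 1, nat_lit 5), (nat_lit 1, nat_lit 1, nat_lit 2), (nat_lit 1, nat_lit 0, nat_lit 4), (nat_lit 1, nat_lit 6, nat_lit 9), (nat_lit 1, nat_lit 6, nat_lit 7)],
   [(nat_lit 1, nat_lit 0, nat_lit 3), (nat_lit 1, nat_lit 1, nat_lit 5), (nat_lit 1, nat_lit 1, nat_lit 2), (nat_lit 1, nat_lit 0, nat_lit 9), (nat_lit 1, nat_lit 4, nat_lit 6), (nat_lit 1, nat_lit 2, nat_lit 8), (nat_lit 1, nat_lit 0, nat_lit 7)],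
   [(nat_lit 1, nat_lit 0, nat_lit 3), (nat_lit 1, nat_lit 1, nat_lit 9), (nat_lit 1, nat_lit 2, nat_lit 6), (nat_lit 1, nat_lit 0, nat_lit 4), (nat_lit 1, nat_lit 5, nat_lit 7), (nat_lit 1, nat_lit 2, nat_lit 5), (nat_lit 1, nat_lit 1, nat_lit 2)],
   [(nat_lit 1, nat_lit 0, nat_lit 3), (nat_lit 1, nat_lit 1, nat_lit 9), (nat_lit 1, nat_lit 2, nat_lit 6), (nat_lit 1, nat_lit 0, nat_lit 5), (nat_lit 1, nat_lit 1, nat_lit 4), (nat_lit 1, nat_lit 0, nat_lit 8), (nat_lit 1, nat_lit 2, nat_lit 4), (nat_lit 1, nat_lit 0, nat_lit 7)],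
   [(nat_lit 1, nat_lit 0, nat_lit 4), (nat_lit 1, nat_lit 1, nat_lit 3), (nat_lit 1, nat_lit 0, nat_lit 2), (nat_lit 1, nat_lit 1, nat_lit 5), (nat_lit 1, nat_lit 6, nat_lit 9), (nat_lit 1, nat_lit 6, nat_lit 8)],
   [(nat_lit 1, nat_lit 0, nat_lit 4), (nat_lit 1, nat_lit 1, nat_lit 3), (nat_lit 1, nat_lit 0, nat_lit 2), (nat_lit 1, nat_lit 1, nat_lit 9), (nat_lit 1, nat_lit 2, nat_lit 7), (nat_lit 1, nat_lit 5, nat_lit 6), (nat_lit 1, nat_lit 1, nat_lit 8)],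
   [(nat_lit 1, nat_lit 0, nat_lit 4), (nat_lit 1, nat_lit 1, nat_lit 5), (nat_lit 1, nat_lit 6, nat_lit 9)],
   [(nat_lit 1, nat_lit 0, nat_lit 4), (nat_lit 1, nat_lit 1, nat_lit 5), (nat_lit 1, nat_lit 3, nat_lit 9), (nat_lit 1, nat_lit 0, nat_lit 7), (nat_lit 1, nat_lit 1, nat_lit 8), (nat_lit 1, nat_lit 3, nat_lit 6)],
   [(nat_lit 1, nat_lit 0, nat_lit 4), (nat_lit 1, nat_lit 1, nat_lit 9), (nat_lit 1, nat_lit 2, nat_lit 7), (nat_lit 1, nat_lit 5, nat_lit 6)],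
   [(nat_lit 1, nat_lit 0, nat_lit 4), (nat_lit 1, nat_lit 1, nat_lit 9), (nat_lit 1, nat_lit 2, nat_lit 7), (nat_lit 1, nat_lit 3, nat_lit 5), (nat_lit 1, nat_lit 0, nat_lit 2), (nat_lit 1, nat_lit 3, nat_lit 8), (nat_lit 1, nat_lit 3, nat_lit 6)]],
  [[(nat_lit 1, nat_lit 0, nat_lit 5), (nat_lit 1, nat_lit 1, nat_lit 3), (nat_lit 1, nat_lit 1, nat_lit 2), (nat_lit 1, nat_lit 2, nat_lit 4), (nat_lit 1, nat_lit 6, nat_lit 9), (nat_lit 1, nat_lit 7, nat_lit 8), (nat_lit 1, nat_lit 6, nat_lit 7)],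
   [(nat_lit 1, nat_lit 0, nat_lit 5), (nat_lit 1, nat_lit 1, nat_lit 3), (nat_lit 1, nat_lit 1, nat_lit 2), (nat_lit 1, nat_lit 2, nat_lit 9), (nat_lit 1, nat_lit 4, nat_lit 8), (nat_lit 1, nat_lit 0, nat_lit 6), (nat_lit 1, nat_lit 0, nat_lit 4), (nat_lit 1, nat_lit 2, nat_lit 7)],
   [(nat_lit 1, nat_lit 0, nat_lit 5), (nat_lit 1, nat_lit 1, nat_lit 4), (nat_lit 1, nat_lit 6, nat_lit 9), (nat_lit 1, nat_lit 7, nat_lit 8)],
   [(nat_lit 1, nat_lit 0, nat_lit 5), (nat_lit 1, nat_lit 1, nat_lit 4), (nat_lit 1, nat_lit 3, nat_lit 9), (nat_lit 1, nat_lit 1, nat_lit 8), (nat_lit 1, nat_lit 0, nat_lit 7), (nat_lit 1, nat_lit 3, nat_lit 6), (nat_lit 1, nat_lit 0, nat_lit 1)],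
   [(nat_lit 1, nat_lit 0, nat_lit 5), (nat_lit 1, nat_lit 1, nat_lit 9), (nat_lit 1, nat_lit 2, nat_lit 8), (nat_lit 1, nat_lit 1, nat_lit 4), (nat_lit 1, nat_lit 0, nat_lit 6), (nat_lit 1, nat_lit 0, nat_lit 4), (nat_lit 1, nat_lit 2, nat_lit 7)],
   [(nat_lit 1, nat_lit 0, nat_lit 5), (nat_lit 1, nat_lit 1, nat_lit 9), (nat_lit 1, nat_lit 2, nat_lit 8), (nat_lit 1, nat_lit 3, nat_lit 4), (nat_lit 1, nat_lit 2, nat_lit 3), (nat_lit 1, nat_lit 0, nat_lit 7), (nat_lit 1, nat_lit 3, nat_lit 6), (nat_lit 1, nat_lit 0, nat_lit 1)],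
   [(nat_lit 1, nat_lit 0, nat_lit 9), (nat_lit 1, nat_lit 1, nat_lit 3), (nat_lit 1, nat_lit 2, nat_lit 6), (nat_lit 1, nat_lit 1, nat_lit 4), (nat_lit 1, nat_lit 1, nat_lit 7), (nat_lit 1, nat_lit 0, nat_lit 5), (nat_lit 1, nat_lit 2, nat_lit 5), (nat_lit 1, nat_lit 1, nat_lit 8)],
   [(nat_lit 1, nat_lit 0, nat_lit 9), (nat_lit 1, nat_lit 1, nat_lit 3), (nat_lit 1, nat_lit 2, nat_lit 6), (nat_lit 1, nat_lit 1, nat_lit 5), (nat_lit 1, nat_lit 4, nat_lit 8), (nat_lit 1, nat_lit 2, nat_lit 4), (nat_lit 1, nat_lit 0, nat_lit 2)],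
   [(nat_lit 1, nat_lit 0, nat_lit 9), (nat_lit 1, nat_lit 1, nat_lit 4), (nat_lit 1, nat_lit 2, nat_lit 7), (nat_lit 1, nat_lit 1, nat_lit 6), (nat_lit 1, nat_lit 0, nat_lit 5), (nat_lit 1, nat_lit 1, nat_lit 5), (nat_lit 1, nat_lit 2, nat_lit 8)],
   [(nat_lit 1, nat_lit 0, nat_lit 9), (nat_lit 1, nat_lit 1, nat_lit 4), (nat_lit 1, nat_lit 2, nat_lit 7), (nat_lit 1, nat_lit 3, nat_lit 5), (nat_lit 1, nat_lit 1, nat_lit 8), (nat_lit 1, nat_lit 2, nat_lit 3), (nat_lit 1, nat_lit 3, nat_lit 6), (nat_lit 1, nat_lit 0, nat_lit 1)],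
   [(nat_lit 1, nat_lit 0, nat_lit 9), (nat_lit 1, nat_lit 1, nat_lit 5), (nat_lit 1, nat_lit 2, nat_lit 8), (nat_lit 1, nat_lit 4, nat_lit 6)],
   [(nat_lit 1, nat_lit 0, nat_lit 9), (nat_lit 1, nat_lit 1, nat_lit 5), (nat_lit 1, nat_lit 2, nat_lit 8), (nat_lit 1, nat_lit 3, nat_lit 4), (nat_lit 1, nat_lit 3, nat_lit 7), (nat_lit 1, nat_lit 1, nat_lit 2), (nat_lit 1, nat_lit 3, nat_lit 6)]],
  [[(nat_lit 1, nat_lit 0, nat_lit 6), (nat_lit 1, nat_lit 1, nat_lit 7), (nat_lit 1, nat_lit 0, nat_lit 2), (nat_lit 1, nat_lit 3, nat_lit 8), (nat_lit 1, nat_lit 1, nat_lit 4), (nat_lit 1, nat_lit 2, nat_lit 5), (nat_lit 1, nat_lit 5, nat_lit 9), (nat_lit 1, nat_lit 3, nat_lit 4)],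
   [(nat_lit 1, nat_lit 0, nat_lit 6), (nat_lit 1, nat_lit 1, nat_lit 7), (nat_lit 1, nat_lit 0, nat_lit 2), (nat_lit 1, nat_lit 3, nat_lit 9), (nat_lit 1, nat_lit 3, nat_lit 4), (nat_lit 1, nat_lit 4, nat_lit 5), (nat_lit 1, nat_lit 2, nat_lit 8)],
   [(nat_lit 1, nat_lit 0, nat_lit 6), (nat_lit 1, nat_lit 1, nat_lit 8), (nat_lit 1, nat_lit 1, nat_lit 2), (nat_lit 1, nat_lit 3, nat_lit 7), (nat_lit 1, nat_lit 0, nat_lit 4), (nat_lit 1, nat_lit 2, nat_lit 5), (nat_lit 1, nat_lit 4, nat_lit 9)],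
   [(nat_lit 1, nat_lit 0, nat_lit 6), (nat_lit 1, nat_lit 1, nat_lit 8), (nat_lit 1, nat_lit 1, nat_lit 2), (nat_lit 1, nat_lit 3, nat_lit 9), (nat_lit 1, nat_lit 3, nat_lit 4), (nat_lit 1, nat_lit 0, nat_lit 7)],
   [(nat_lit 1, nat_lit 0, nat_lit 6), (nat_lit 1, nat_lit 1, nat_lit 9), (nat_lit 1, nat_lit 2, nat_lit 3), (nat_lit 1, nat_lit 2, nat_lit 7), (nat_lit 1, nat_lit 0, nat_lit 4), (nat_lit 1, nat_lit 4, nat_lit 5), (nat_lit 1, nat_lit 5, nat_lit 8), (nat_lit 1, nat_lit 1, nat_lit 2)],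
   [(nat_lit 1, nat_lit 0, nat_lit 6), (nat_lit 1, nat_lit 1, nat_lit 9), (nat_lit 1, nat_lit 2, nat_lit 3), (nat_lit 1, nat_lit 2, nat_lit 8), (nat_lit 1, nat_lit 1, nat_lit 4), (nat_lit 1, nat_lit 0, nat_lit 7), (nat_lit 1, nat_lit 2, nat_lit 4)],
   [(nat_lit 1, nat_lit 0, nat_lit 7), (nat_lit 1, nat_lit 1, nat_lit 6), (nat_lit 1, nat_lit 0, nat_lit 2), (nat_lit 1, nat_lit 3, nat_lit 8), (nat_lit 1, nat_lit 2, nat_lit 4), (nat_lit 1, nat_lit 1, nat_lit 5), (nat_lit 1, nat_lit 5, nat_lit 9)],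
   [(nat_lit 1, nat_lit 0, nat_lit 7), (nat_lit 1, nat_lit 1, nat_lit 6), (nat_lit 1, nat_lit 0, nat_lit 2), (nat_lit 1, nat_lit 3, nat_lit 9), (nat_lit 1, nat_lit 3, nat_lit 5), (nat_lit 1, nat_lit 1, nat_lit 8)],
   [(nat_lit 1, nat_lit 0, nat_lit 7), (nat_lit 1, nat_lit 1, nat_lit 8), (nat_lit 1, nat_lit 3, nat_lit 6), (nat_lit 1, nat_lit 0, nat_lit 4), (nat_lit 1, nat_lit 1, nat_lit 5), (nat_lit 1, nat_lit 3, nat_lit 9)],
   [(nat_lit 1, nat_lit 0, nat_lit 7), (nat_lit 1, nat_lit 1, nat_lit 8), (nat_lit 1, nat_lit 3, nat_lit 9)],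
   [(nat_lit 1, nat_lit 0, nat_lit 7), (nat_lit 1, nat_lit 1, nat_lit 9), (nat_lit 1, nat_lit 2, nat_lit 4), (nat_lit 1, nat_lit 3, nat_lit 6), (nat_lit 1, nat_lit 0, nat_lit 2), (nat_lit 1, nat_lit 3, nat_lit 5), (nat_lit 1, nat_lit 5, nat_lit 8)],
   [(nat_lit 1, nat_lit 0, nat_lit 7), (nat_lit 1, nat_lit 1, nat_lit 9), (nat_lit 1, nat_lit 2, nat_lit 4), (nat_lit 1, nat_lit 3, nat_lit 8)]],
  [[(nat_lit 1, nat_lit 0, nat_lit 8), (nat_lit 1, nat_lit 1, nat_lit 6), (nat_lit 1, nat_lit 1, nat_lit 2), (nat_lit 1, nat_lit 3, nat_lit 7), (nat_lit 1, nat_lit 2, nat_lit 4), (nat_lit 1, nat_lit 0, nat_lit 5), (nat_lit 1, nat_lit 4, nat_lit 9), (nat_lit 1, nat_lit 3, nat_lit 5)],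
   [(nat_lit 1, nat_lit 0, nat_lit 8), (nat_lit 1, nat_lit 1, nat_lit 6), (nat_lit 1, nat_lit 1, nat_lit 2), (nat_lit 1, nat_lit 3, nat_lit 9), (nat_lit 1, nat_lit 4, nat_lit 5), (nat_lit 1, nat_lit 3, nat_lit 4), (nat_lit 1, nat_lit 2, nat_lit 7)],
   [(nat_lit 1, nat_lit 0, nat_lit 8), (nat_lit 1, nat_lit 1, nat_lit 7), (nat_lit 1, nat_lit 3, nat_lit 6), (nat_lit 1, nat_lit 1, nat_lit 4), (nat_lit 1, nat_lit 0, nat_lit 5), (nat_lit 1, nat_lit 3, nat_lit 9), (nat_lit 1, nat_lit 4, nat_lit 5)],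
   [(nat_lit 1, nat_lit 0, nat_lit 8), (nat_lit 1, nat_lit 1, nat_lit 7), (nat_lit 1, nat_lit 3, nat_lit 9), (nat_lit 1, nat_lit 4, nat_lit 5)],
   [(nat_lit 1, nat_lit 0, nat_lit 8), (nat_lit 1, nat_lit 1, nat_lit 9), (nat_lit 1, nat_lit 2, nat_lit 5), (nat_lit 1, nat_lit 3, nat_lit 6), (nat_lit 1, nat_lit 1, nat_lit 4), (nat_lit 1, nat_lit 2, nat_lit 3), (nat_lit 1, nat_lit 2, nat_lit 7), (nat_lit 1, nat_lit 0, nat_lit 4)],
   [(nat_lit 1, nat_lit 0, nat_lit 8), (nat_lit 1, nat_lit 1, nat_lit 9), (nat_lit 1, nat_lit 2, nat_lit 5), (nat_lit 1, nat_lit 3, nat_lit 7), (nat_lit 1, nat_lit 2, nat_lit 4), (nat_lit 1, nat_lit 1, nat_lit 3), (nat_lit 1, nat_lit 0, nat_lit 3)],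
   [(nat_lit 1, nat_lit 0, nat_lit 9), (nat_lit 1, nat_lit 1, nat_lit 6), (nat_lit 1, nat_lit 2, nat_lit 3), (nat_lit 1, nat_lit 2, nat_lit 7), (nat_lit 1, nat_lit 0, nat_lit 5), (nat_lit 1, nat_lit 1, nat_lit 8), (nat_lit 1, nat_lit 2, nat_lit 5)],
   [(nat_lit 1, nat_lit 0, nat_lit 9), (nat_lit 1, nat_lit 1, nat_lit 6), (nat_lit 1, nat_lit 2, nat_lit 3), (nat_lit 1, nat_lit 2, nat_lit 8), (nat_lit 1, nat_lit 4, nat_lit 5), (nat_lit 1, nat_lit 1, nat_lit 4), (nat_lit 1, nat_lit 4, nat_lit 7), (nat_lit 1, nat_lit 0, nat_lit 2)],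
   [(nat_lit 1, nat_lit 0, nat_lit 9), (nat_lit 1, nat_lit 1, nat_lit 7), (nat_lit 1, nat_lit 2, nat_lit 4), (nat_lit 1, nat_lit 3, nat_lit 6), (nat_lit 1, nat_lit 2, nat_lit 3), (nat_lit 1, nat_lit 0, nat_lit 5), (nat_lit 1, nat_lit 2, nat_lit 8), (nat_lit 1, nat_lit 1, nat_lit 5)],
   [(nat_lit 1, nat_lit 0, nat_lit 9), (nat_lit 1, nat_lit 1, nat_lit 7), (nat_lit 1, nat_lit 2, nat_lit 4), (nat_lit 1, nat_lit 3, nat_lit 8), (nat_lit 1, nat_lit 2, nat_lit 5), (nat_lit 1, nat_lit 1, nat_lit 3), (nat_lit 1, nat_lit 0, nat_lit 1)],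
   [(nat_lit 1, nat_lit 0, nat_lit 9), (nat_lit 1, nat_lit 1, nat_lit 8), (nat_lit 1, nat_lit 2, nat_lit 5), (nat_lit 1, nat_lit 3, nat_lit 6), (nat_lit 1, nat_lit 3, nat_lit 4), (nat_lit 1, nat_lit 1, nat_lit 2), (nat_lit 1, nat_lit 4, nat_lit 7)],
   [(nat_lit 1, nat_lit 0, nat_lit 9), (nat_lit 1, nat_lit 1, nat_lit 8), (nat_lit 1, nat_lit 2, nat_lit 5), (nat_lit 1, nat_lit 3, nat_lit 7)]]]

/-- The type of a pattern. -/
noncomputable def dip (p : ℕ) : ℕ := lnG 6 IPT p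

/-- The permutation of a pattern. -/
noncomputable def dpp (p : ℕ) : ℕ := lnG 7 PPT p

/-- The pair of a pattern. -/
noncomputable def dtn (p : ℕ) : ℕ := lnG 7 TNT p

/-- The pattern of a type. -/
noncomputable def drp (i : ℕ) : ℕ := lnG 10 RPT i

/-- The number of pairs of vectors of a type. -/
noncomputable def dRp (i : ℕ) : ℕ := lnG 8 RRT i

/-- The type of a pair. -/
noncomputable def dit (t : ℕ) : ℕ := lnG 6 ITT t

/-- The marked vertex of a pair. -/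
noncomputable def dvt (t : ℕ) : ℕ := lnG 3 VTT t

/-- The low bits. -/
noncomputable def dkx (k x0 : ℕ) : ℕ := lnG 6 KXT (Nat.add (Nat.mul 64 k) x0)

/-- The program for a block. -/
noncomputable def dpgb (k : ℕ) : List (ℕ × ℕ × ℕ) := nthG [] PGB (lnG 5 RKL k)

/-- The program for a row. -/
noncomputable def dpgr (k : ℕ) : List (ℕ × ℕ × ℕ) := nth2 [] 12 PGR k

/-- The constant of a type. -/
noncomputable def dKO (i : ℕ) : ℕ := Nat.add 36310267667153025 (Nat.mul (dRp i) 70368744177664)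

theorem chk_pp : allN (fun p => ppC dip dpp drp 34 p) 1024 = true := by decide +kernel

theorem chk_ip : allN (fun i => allN (fun k => ipC dip drp i k) 120) 34 = true := by decide +kernel

theorem chk_ri : allN (fun i => Nat.beq (dip (drp i)) i) 34 = true := by decide +kernel

theorem chk_tn : allN (fun p => tnChk dip dpp dtn dit dvt 90 p) 1024 = true := by decide +kernel

theorem chk_kx : allN (fun k => kxC dkx k) 120 = true := by decide +kernel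

theorem chk_R : allN (fun i => Nat.ble (dRp i) 129) 34 = true := by decide +kernel

theorem RRT_lt : RRT < 2 ^ (8 * 34) := by decide +kernel

theorem dRp_le (i : ℕ) : dRp i ≤ 129 := by
  by_cases hi : i < 34
  · have h := allN_spec _ _ chk_R i hi
    exact Nat.ble_eq.mp h
  · unfold dRp
    rw [lnG_eq, Ln_eq_zero_of_lt 8 RRT 34 i RRT_lt (not_lt.mp hi)]
    exact Nat.zero_le _

theorem dpgb_eq : ∀ k < 120, dpgb k = pg8 k := by decide +kernel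

theorem dpgr_eq : ∀ k < 120, dpgr k = pg10 k := by decide +kernel

end Pool.Agent.Lib.MP_afdd4d_co.K10.LD
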